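import Pool.Agent.Helper81.Y13.Box
import Pool.Agent.Helper69.Y13.Defs

/-! # The density of the parameters which are not of Wieferich type -/

open Finset

namespace Pool.Agent.Helper81.Y13
open Pool.Agent.Helper20.DL Pool.Agent.Helper81.DL Pool.Agent.Helper69.Y13

variable {σ : Type} [Fintype σ]

/-- the zeros of `P` modulo `p`, in the representatives modulo `p ^ 2` -/
lemma card_zeros {p : ℕ} (hp : p.Prime) {P : MvPolynomial σ ℤ} (hmap : P.map (Int.castRingHom (ZMod p)) ≠ 0) :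
    p * ((box2 σ p).filter fun u => (p : ℤ) ∣ MvPolynomial.eval u P).card ≤
      P.totalDegree * (p ^ 2) ^ Fintype.card σ := by
  classical
  set e : Fin (Fintype.card σ) ≃ σ := (Fintype.equivFin σ).symm
  set P₁ : MvPolynomial (Fin (Fintype.card σ)) ℤ := MvPolynomial.rename e.symm P with hP₁
  have h1 : P₁.map (Int.castRingHom (ZMod p)) ≠ 0 := by
    intro h
    apply hmap
    rw [hP₁, MvPolynomial.map_rename] at h
    exact MvPolynomial.rename_injective _ e.symm.injective (by rw [h, map_zero])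
  have h2 := card_zeros_fin hp h1
  have h3 : P₁.totalDegree ≤ P.totalDegree := MvPolynomial.totalDegree_rename_le _ _
  have h4 : ((box2 σ p).filter fun u => (p : ℤ) ∣ MvPolynomial.eval u P).card ≤
      ((box2 (Fin (Fintype.card σ)) p).filter fun u => (p : ℤ) ∣ MvPolynomial.eval u P₁).card := by
    refine card_le_card_of_injOn (fun u => u ∘ e) (fun u hu => ?_) ?_
    · rw [Finset.mem_coe, mem_filter, mem_box2] at hu
      rw [Finset.mem_coe, mem_filter, mem_box2]
      refine ⟨fun i => hu.1 _, ?_⟩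
      rw [hP₁, MvPolynomial.eval_rename]
      have h5 : (u ∘ e) ∘ e.symm = u := by
        funext i
        simp
      rw [h5]
      exact hu.2
    · intro u _ w _ h
      funext i
      have := congrFun h (e.symm i)
      simpa using this
  calc p * ((box2 σ p).filter fun u => (p : ℤ) ∣ MvPolynomial.eval u P).card ≤
        p * ((box2 (Fin (Fintype.card σ)) p).filter fun u => (p : ℤ) ∣ MvPolynomial.eval u P₁).card :=
        Nat.mul_le_mul_left _ h4
    _ ≤ P₁.totalDegree * (p ^ 2) ^ Fintype.card σ := h2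
    _ ≤ P.totalDegree * (p ^ 2) ^ Fintype.card σ := Nat.mul_le_mul_right _ h3

omit [Fintype σ] in
lemma map_ne_zero_of_large' {P : MvPolynomial σ ℤ} (hP : P ≠ 0) :
    ∃ p₁ : ℕ, ∀ p : ℕ, p₁ ≤ p → P.map (Int.castRingHom (ZMod p)) ≠ 0 := by
  obtain ⟨m, hm⟩ := MvPolynomial.ne_zero_iff.1 hP
  refine ⟨(P.coeff m).natAbs + 1, fun p hp h0 => hm ?_⟩
  have h1 := congrArg (MvPolynomial.coeff m) h0
  rw [MvPolynomial.coeff_map, MvPolynomial.coeff_zero, eq_intCast, ZMod.intCast_zmod_eq_zero_iff_dvd] at h1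
  by_contra hne
  have h2 := Int.natAbs_dvd_natAbs.2 h1
  rw [Int.natAbs_natCast] at h2
  have h3 := Nat.le_of_dvd (Int.natAbs_pos.2 hne) h2
  omega

omit [Fintype σ] in
lemma nonWief_of_not_badRoot {v : AbsoluteValue ℂ ℝ} {p : ℕ} {H : MvPolynomial (Fin 2) (MvPolynomial σ ℤ)}
    {s : σ → ℤ} (h : ¬ BadRoot v p ((bot H).map (MvPolynomial.eval s))) :
    NonWief v p (MvPolynomial.map (MvPolynomial.eval s) H) := by
  intro κ η hκ hκ1 hη
  by_contra hcon
  push Not at hcon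
  obtain ⟨g, hg, hη⟩ := hη
  rw [ev_bot] at hκ
  exact h ⟨κ, η, hκ, hκ1, ⟨g, hg, hη⟩, hcon⟩

omit [Fintype σ] in
lemma badPt_congr {v : AbsoluteValue ℂ ℝ} {p : ℕ} {h : Polynomial (MvPolynomial σ ℤ)} {u w : σ → ℤ}
    (huw : ∀ i, (p : ℤ) ^ 2 ∣ u i - w i) (hu : BadPt v p h u) : BadPt v p h w := by
  obtain ⟨s, hs, hb⟩ := hu
  refine ⟨s, fun i => ?_, hb⟩
  have h1 := dvd_add (hs i) (huw i)
  rwa [sub_add_sub_cancel] at h1

/-- the weighted homogeneity of a relation with a scaling which moves the roots of the bottom polynomial -/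
def Homog (H : MvPolynomial (Fin 2) (MvPolynomial σ ℤ)) : Prop :=
  ∃ (δ : σ → ℕ) (a c k : ℤ), c ≠ 0 ∧ ∀ m μ, (H.coeff m).coeff μ ≠ 0 → a * m 0 + c * m 1 + wtS δ μ = k

/-- the relations of a family which is invariant under a scaling -/
lemma homog_of_scale' {n : ℕ} {ss : σ → ℂ} {zs : Fin n → ℂ} (hz0 : ∀ i, zs i ≠ 0) {δ : σ → ℕ} {ε : Fin n → ℕ}
    (hscal : (fun i => 2 ^ ε i * zs i) ∈ Pool.Agent.Helper69.AA.fib ss zs fun κ => 2 ^ δ κ * ss κ)
    {H : MvPolynomial (Fin 2) (MvPolynomial σ ℤ)} (hH0 : H ≠ 0) {a b : Fin n → ℤ}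
    (hb : ∑ i, (ε i : ℤ) * b i ≠ 0)
    (hrel : Pool.Agent.Helper69.AA.evs ss H (∏ i, zs i ^ a i) (∏ i, zs i ^ b i) = 0)
    (hK : ∀ G : MvPolynomial (Fin 2) (MvPolynomial σ ℤ),
      Pool.Agent.Helper69.AA.evs ss G (∏ i, zs i ^ a i) (∏ i, zs i ^ b i) = 0 → H ∣ G) : Homog H := by
  obtain ⟨k, hk⟩ := homog_of_scale hz0 hscal hH0 hrel hK
  exact ⟨δ, _, _, k, hb, hk⟩

/-- **the density of the good parameters**: `vv p` is the chosen place over `p`, `sh` is the shift -/
theorem wief_density {ι : Type} [Fintype ι] {H : ι → MvPolynomial (Fin 2) (MvPolynomial σ ℤ)}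
    (hbot : ∀ i, ∃ m, (H i).coeff m ≠ 0 ∧ m 0 = 0) (hhom : ∀ i, Homog (H i)) {P : MvPolynomial σ ℤ} (hP : P ≠ 0)
    (sh : σ → ℤ) {vv : ℕ → AbsoluteValue ℂ ℝ} (hvv : ∀ p, IsNonarchimedean (vv p))
    (hvp : ∀ p : ℕ, p.Prime → vv p (p : ℂ) < 1) :
    ∃ (p₀ : ℕ) (G : ℕ → Set (σ → ℤ)),
      (∀ (p : ℕ) (u w : σ → ℤ), (∀ i, (p : ℤ) ^ 2 ∣ u i - w i) → u ∈ G p → w ∈ G p) ∧
      (∀ p : ℕ, p.Prime → p₀ ≤ p → ((p : ℝ) ^ 2) ^ Fintype.card σ / 2 ≤
        (Set.ncard {u | (∀ i, 0 ≤ u i ∧ u i < (p : ℤ) ^ 2) ∧ u ∈ G p} : ℝ)) ∧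
      ∀ (p : ℕ) (u : σ → ℤ), u ∈ G p → ¬ (p : ℤ) ∣ MvPolynomial.eval u P ∧
        ∀ s : σ → ℤ, (∀ κ, (p : ℤ) ^ 2 ∣ s κ - (u κ - p * sh κ)) → ∀ i,
          NonWief (vv p) p (MvPolynomial.map (MvPolynomial.eval s) (H i)) := by
  classical
  have key : ∀ i, ∃ (δ : σ → ℕ) (P : MvPolynomial σ ℤ) (D p₁ : ℕ), P ≠ 0 ∧ ∀ p : ℕ, p.Prime → p₁ ≤ p →
      ∀ v : AbsoluteValue ℂ ℝ, IsNonarchimedean v → v (p : ℂ) < 1 → ∀ u : σ → ℤ, ¬ (p : ℤ) ∣ MvPolynomial.eval u P →
        ∀ T : Finset ℕ, (∀ r ∈ T, r < p) → (∀ r ∈ T, BadPt v p (bot (H i)) (scal δ (1 + p * r) u)) → T.card ≤ D := by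
    intro i
    obtain ⟨m, hm, hm0⟩ := hbot i
    obtain ⟨δ, a, c, k, hc, hh⟩ := hhom i
    obtain ⟨P, D, p₁, h1, h2⟩ := card_bad_le (bot_ne_zero hm hm0) (δ := δ) hc (k := k) (fun j μ hjμ => by
      rw [coeff_bot] at hjμ
      have h3 := hh _ _ hjμ
      simpa using h3)
    exact ⟨δ, P, D, p₁, h1, h2⟩
  choose δ Q D q₁ hQ hcard using key
  set P₁ := P * ∏ i, Q i with hP₁
  have hP₁0 : P₁ ≠ 0 := mul_ne_zero hP (prod_ne_zero_iff.2 fun i _ => hQ i)
  obtain ⟨q₂, hq₂⟩ := map_ne_zero_of_large' hP₁0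
  set E := P₁.totalDegree + ∑ i, D i with hE
  set G : ℕ → Set (σ → ℤ) := fun p => {u | ¬ (p : ℤ) ∣ MvPolynomial.eval u P₁ ∧
    ∀ i, ¬ BadPt (vv p) p (bot (H i)) fun κ => u κ - p * sh κ} with hG
  refine ⟨max (∑ i, q₁ i) (max q₂ (2 * E)), G, ?_, ?_, ?_⟩
  · rintro p u w huw ⟨h1, h2⟩
    refine ⟨fun h3 => h1 ?_, fun i h3 => h2 i ?_⟩
    · exact (dvd_eval_iff P₁ fun i => (dvd_pow_self _ two_ne_zero).trans (huw i)).2 h3
    · refine badPt_congr (fun j => ?_) h3
      rw [sub_sub_sub_cancel_right, ← dvd_neg, neg_sub]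
      exact huw j
  · intro p hp hpp
    have hpq₁ : ∀ i, q₁ i ≤ p := fun i =>
      (single_le_sum (f := q₁) (fun _ _ => Nat.zero_le _) (mem_univ i)).trans ((le_max_left _ _).trans hpp)
    have hpq₂ : q₂ ≤ p := (le_max_left _ _).trans ((le_max_right _ _).trans hpp)
    have hpE : 2 * E ≤ p := (le_max_right _ _).trans ((le_max_right _ _).trans hpp)
    set N := Fintype.card σ with hN
    -- the bad points
    set A : ι → (σ → ℤ) → Prop := fun i u => ¬ (p : ℤ) ∣ MvPolynomial.eval u (Q i) ∧ BadPt (vv p) p (bot (H i)) u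
    have hAc : ∀ i, p * ((box2 σ p).filter (A i)).card ≤ D i * (p ^ 2) ^ N := by
      intro i
      refine double_count hp (δ i) ?_ ?_
      · rintro u w huw ⟨h1, h2⟩
        refine ⟨fun h3 => h1 ?_, badPt_congr huw h2⟩
        exact (dvd_eval_iff _ fun i => (dvd_pow_self _ two_ne_zero).trans (huw i)).2 h3
      · intro u
        by_cases hu : (p : ℤ) ∣ MvPolynomial.eval u (Q i)
        · rw [filter_false_of_mem]
          · exact Nat.zero_le _
          · rintro r - ⟨h1, -⟩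
            apply h1
            refine (dvd_eval_iff _ fun j => ?_).2 hu
            have h3 : (p : ℤ) ∣ (1 + p * r) ^ δ i j - 1 := by
              have h4 := sub_dvd_pow_sub_pow (1 + (p : ℤ) * r) 1 (δ i j)
              rw [one_pow, add_sub_cancel_left] at h4
              exact (dvd_mul_right _ _).trans h4
            have h5 : scal (δ i) (1 + p * r) u j - u j = ((1 + p * r) ^ δ i j - 1) * u j := by
              unfold scal; ring
            rw [h5]
            exact h3.mul_right _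
        · refine hcard i p hp (hpq₁ i) (vv p) (hvv p) (hvp p hp) u hu _ (fun r hr => ?_) fun r hr => ?_
          · exact mem_range.1 (mem_filter.1 hr).1
          · exact (mem_filter.1 hr).2.2
    -- the complement of `G`
    set Bd : Finset (σ → ℤ) := (box2 σ p).filter fun u => u ∉ G p with hBd
    have hsub : Bd ⊆ ((box2 σ p).filter fun u => (p : ℤ) ∣ MvPolynomial.eval u P₁) ∪
        univ.biUnion fun i => (box2 σ p).filter fun u => A i (fun κ => u κ - p * sh κ) := by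
      intro u hu
      rw [hBd, mem_filter] at hu
      by_cases h1 : (p : ℤ) ∣ MvPolynomial.eval u P₁
      · exact mem_union_left _ (mem_filter.2 ⟨hu.1, h1⟩)
      · refine mem_union_right _ ?_
        have h2 : ∃ i, BadPt (vv p) p (bot (H i)) fun κ => u κ - p * sh κ := by
          by_contra hcon
          push Not at hcon
          exact hu.2 ⟨h1, hcon⟩
        obtain ⟨i, hi⟩ := h2
        rw [mem_biUnion]
        refine ⟨i, mem_univ _, mem_filter.2 ⟨hu.1, fun h3 => h1 ?_, hi⟩⟩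
        have h4 : (p : ℤ) ∣ MvPolynomial.eval u (Q i) := by
          refine (dvd_eval_iff (Q i) fun j => ?_).2 h3
          rw [sub_sub_cancel]
          exact dvd_mul_right _ _
        rw [hP₁, map_mul, map_prod]
        exact (h4.trans (dvd_prod_of_mem (fun i => MvPolynomial.eval u (Q i)) (mem_univ i))).mul_left _
    have hshift : ∀ i, ((box2 σ p).filter fun u => A i (fun κ => u κ - p * sh κ)).card ≤
        ((box2 σ p).filter (A i)).card := by
      intro i
      refine card_le_shift hp.pos (fun u κ => u κ - p * sh κ) ?_ ?_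
      · intro u w h j
        have := h j
        rwa [sub_sub_sub_cancel_right] at this
      · rintro u ⟨h1, h2⟩
        have h3 : ∀ j, (p : ℤ) ^ 2 ∣ (u j - p * sh j) - red2 p (fun κ => u κ - p * sh κ) j := by
          intro j
          rw [← dvd_neg, neg_sub]
          exact red2_dvd p (fun κ => u κ - p * sh κ) j
        refine ⟨fun h4 => h1 ?_, badPt_congr h3 h2⟩
        exact (dvd_eval_iff _ fun j => (dvd_pow_self _ two_ne_zero).trans (h3 j)).2 h4
    have hBdc : p * Bd.card ≤ E * (p ^ 2) ^ N := by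
      calc p * Bd.card ≤ p * (((box2 σ p).filter fun u => (p : ℤ) ∣ MvPolynomial.eval u P₁).card +
            ∑ i, ((box2 σ p).filter (A i)).card) := by
            refine Nat.mul_le_mul_left _ ((card_le_card hsub).trans ((card_union_le _ _).trans ?_))
            exact Nat.add_le_add_left (card_biUnion_le.trans (sum_le_sum fun i _ => hshift i)) _
        _ = p * ((box2 σ p).filter fun u => (p : ℤ) ∣ MvPolynomial.eval u P₁).card +
            ∑ i, p * ((box2 σ p).filter (A i)).card := by rw [mul_add, mul_sum]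
        _ ≤ P₁.totalDegree * (p ^ 2) ^ N + ∑ i, D i * (p ^ 2) ^ N :=
            Nat.add_le_add (card_zeros hp (hq₂ p hpq₂)) (sum_le_sum fun i _ => hAc i)
        _ = E * (p ^ 2) ^ N := by rw [hE, add_mul, sum_mul]
    have hBd2 : 2 * Bd.card ≤ (p ^ 2) ^ N := by
      have h1 : p * (2 * Bd.card) ≤ p * (p ^ 2) ^ N := by
        calc p * (2 * Bd.card) = 2 * (p * Bd.card) := by ring
          _ ≤ 2 * (E * (p ^ 2) ^ N) := Nat.mul_le_mul_left _ hBdc
          _ = (2 * E) * (p ^ 2) ^ N := by ring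
          _ ≤ p * (p ^ 2) ^ N := Nat.mul_le_mul_right _ hpE
      exact Nat.le_of_mul_le_mul_left h1 hp.pos
    have hset : {u : σ → ℤ | (∀ i, 0 ≤ u i ∧ u i < (p : ℤ) ^ 2) ∧ u ∈ G p} =
        (((box2 σ p).filter fun u => u ∈ G p : Finset (σ → ℤ)) : Set (σ → ℤ)) := by
      ext u
      rw [Finset.mem_coe, mem_filter, mem_box2]
      rfl
    rw [hset, Set.ncard_coe_finset]
    have h1 : ((box2 σ p).filter fun u => u ∈ G p).card + Bd.card = (p ^ 2) ^ N := by
      rw [hBd, card_filter_add_card_filter_not, card_box2]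
    have h2 : (((box2 σ p).filter fun u => u ∈ G p).card : ℝ) + Bd.card = ((p : ℝ) ^ 2) ^ N := by exact_mod_cast h1
    have h3 : 2 * (Bd.card : ℝ) ≤ ((p : ℝ) ^ 2) ^ N := by exact_mod_cast hBd2
    linarith
  · rintro p u ⟨h1, h2⟩
    refine ⟨fun h3 => h1 ?_, fun s hs i => nonWief_of_not_badRoot fun h3 => h2 i ⟨s, hs, h3⟩⟩
    rw [hP₁, map_mul]
    exact h3.mul_right _

end Pool.Agent.Helper81.Y13
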