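import Pool.Agent.Helper81.Y13.Wief

/-! # Counting modulo `p ^ 2` -/

open Finset

namespace Pool.Agent.Helper81.Y13
open Pool.Agent.Helper81.DL

variable {σ : Type} [Fintype σ]

open Classical in
/-- the representatives modulo `p ^ 2` -/
noncomputable def box2 (σ : Type) [Fintype σ] (p : ℕ) : Finset (σ → ℤ) := Fintype.piFinset fun _ => Ico 0 ((p : ℤ) ^ 2)

/-- reduction modulo `p ^ 2` -/
def red2 (p : ℕ) (u : σ → ℤ) : σ → ℤ := fun i => u i % (p : ℤ) ^ 2

lemma mem_box2 {p : ℕ} {u : σ → ℤ} : u ∈ box2 σ p ↔ ∀ i, 0 ≤ u i ∧ u i < (p : ℤ) ^ 2 := by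
  classical
  rw [box2, Fintype.mem_piFinset]
  exact forall_congr' fun i => mem_Ico

lemma card_box2 (p : ℕ) : (box2 σ p).card = (p ^ 2) ^ Fintype.card σ := by
  classical
  rw [box2, Fintype.card_piFinset, prod_const, card_univ, Int.card_Ico, sub_zero]
  congr 1

omit [Fintype σ] in
lemma red2_dvd (p : ℕ) (u : σ → ℤ) (i : σ) : (p : ℤ) ^ 2 ∣ red2 p u i - u i := by
  rw [red2, ← neg_sub, dvd_neg]
  exact Int.dvd_self_sub_emod

lemma red2_mem {p : ℕ} (hp : 0 < p) (u : σ → ℤ) : red2 p u ∈ box2 σ p := by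
  have h : (0 : ℤ) < (p : ℤ) ^ 2 := by positivity
  exact mem_box2.2 fun i => ⟨Int.emod_nonneg _ h.ne', Int.emod_lt_of_pos _ h⟩

lemma eq_of_dvd_box2 {p : ℕ} {u w : σ → ℤ} (hu : u ∈ box2 σ p) (hw : w ∈ box2 σ p)
    (h : ∀ i, (p : ℤ) ^ 2 ∣ u i - w i) : u = w := by
  funext i
  have h1 := mem_box2.1 hu i
  have h2 := mem_box2.1 hw i
  have h3 : u i - w i = 0 := by
    refine Int.eq_zero_of_abs_lt_dvd (h i) ?_
    rw [abs_lt]
    constructor <;> linarith
  linarith

/-- an injection of the box -/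
lemma card_le_shift {p : ℕ} (hp : 0 < p) (f : (σ → ℤ) → (σ → ℤ))
    (hf : ∀ u w : σ → ℤ, (∀ i, (p : ℤ) ^ 2 ∣ f u i - f w i) → ∀ i, (p : ℤ) ^ 2 ∣ u i - w i)
    {A B : (σ → ℤ) → Prop} [DecidablePred A] [DecidablePred B] (hAB : ∀ u, A u → B (red2 p (f u))) :
    ((box2 σ p).filter A).card ≤ ((box2 σ p).filter B).card := by
  refine card_le_card_of_injOn (fun u => red2 p (f u)) (fun u hu => ?_) ?_
  · rw [Finset.mem_coe, mem_filter] at hu
    rw [Finset.mem_coe, mem_filter]
    exact ⟨red2_mem hp _, hAB u hu.2⟩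
  · intro u hu w hw h
    rw [Finset.mem_coe, mem_filter] at hu hw
    refine eq_of_dvd_box2 hu.1 hw.1 (hf u w fun i => ?_)
    have h1 := red2_dvd p (f u) i
    have h2 := red2_dvd p (f w) i
    have h3 : red2 p (f u) i = red2 p (f w) i := congrFun h i
    have h4 := dvd_sub h2 h1
    rwa [h3, sub_sub_sub_cancel_left] at h4

/-- **double counting** -/
lemma double_count {p : ℕ} (hp : p.Prime) (δ : σ → ℕ) {A : (σ → ℤ) → Prop} [DecidablePred A]
    (hA : ∀ u w : σ → ℤ, (∀ i, (p : ℤ) ^ 2 ∣ u i - w i) → A u → A w) {D : ℕ}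
    (hD : ∀ u : σ → ℤ, ((range p).filter fun r : ℕ => A (scal δ (1 + p * r) u)).card ≤ D) :
    p * ((box2 σ p).filter A).card ≤ D * (p ^ 2) ^ Fintype.card σ := by
  classical
  have hr : ∀ r ∈ range p, ((box2 σ p).filter A).card ≤
      ((box2 σ p).filter fun u => A (scal δ (1 + p * r) u)).card := by
    intro r _
    refine card_le_shift hp.pos (scal δ (1 - p * r)) ?_ ?_
    · intro u w h i
      have h1 : u i - w i = (1 + p * r) ^ δ i * (scal δ (1 - p * r) u i - scal δ (1 - p * r) w i) -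
          ((1 - (p * r) ^ 2) ^ δ i - 1) * (u i - w i) := by
        have h2 : ((1 : ℤ) - (p * r) ^ 2) ^ δ i = (1 + p * r) ^ δ i * (1 - p * r) ^ δ i := by
          rw [← mul_pow]; congr 1; ring
        unfold scal
        rw [h2]
        ring
      rw [h1]
      refine dvd_sub ((h i).mul_left _) (Dvd.dvd.mul_right ?_ _)
      have h4 := sub_dvd_pow_sub_pow (1 - ((p : ℤ) * r) ^ 2) 1 (δ i)
      rw [one_pow] at h4
      refine Dvd.dvd.trans ⟨-(r : ℤ) ^ 2, ?_⟩ h4
      ring
    · intro u hu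
      refine hA u _ (fun i => ?_) hu
      have h1 : u i - scal δ (1 + p * r) (red2 p (scal δ (1 - p * r) u)) i =
          -((1 + p * r) ^ δ i * (red2 p (scal δ (1 - p * r) u) i - scal δ (1 - p * r) u i)) -
          ((1 - (p * r) ^ 2) ^ δ i - 1) * u i := by
        have h2 : ((1 : ℤ) - (p * r) ^ 2) ^ δ i = (1 + p * r) ^ δ i * (1 - p * r) ^ δ i := by
          rw [← mul_pow]; congr 1; ring
        rw [h2]
        unfold scal
        ring
      rw [h1]
      refine dvd_sub ((dvd_neg.2 ((red2_dvd p _ i).mul_left _))) (Dvd.dvd.mul_right ?_ _)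
      have h4 := sub_dvd_pow_sub_pow (1 - ((p : ℤ) * r) ^ 2) 1 (δ i)
      rw [one_pow] at h4
      refine Dvd.dvd.trans ⟨-(r : ℤ) ^ 2, ?_⟩ h4
      ring
  calc p * ((box2 σ p).filter A).card = ∑ r ∈ range p, ((box2 σ p).filter A).card := by
        rw [sum_const, card_range, smul_eq_mul]
    _ ≤ ∑ r ∈ range p, ((box2 σ p).filter fun u => A (scal δ (1 + p * r) u)).card := sum_le_sum hr
    _ = ∑ u ∈ box2 σ p, ((range p).filter fun r : ℕ => A (scal δ (1 + p * r) u)).card := by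
        simp only [card_filter]
        rw [sum_comm]
    _ ≤ ∑ u ∈ box2 σ p, D := sum_le_sum fun u _ => hD u
    _ = D * (p ^ 2) ^ Fintype.card σ := by rw [sum_const, card_box2, smul_eq_mul, mul_comm]

open MvPolynomial in
/-- the zeros of `P` modulo `p`, in the representatives modulo `p ^ 2` -/
lemma card_zeros_fin {N p : ℕ} (hp : p.Prime) {P : MvPolynomial (Fin N) ℤ}
    (hmap : P.map (Int.castRingHom (ZMod p)) ≠ 0) :
    p * ((box2 (Fin N) p).filter fun u => (p : ℤ) ∣ MvPolynomial.eval u P).card ≤ P.totalDegree * (p ^ 2) ^ N := by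
  classical
  have := Fact.mk hp
  have hp0 : (0 : ℤ) < p := by exact_mod_cast hp.pos
  set P' := P.map (Int.castRingHom (ZMod p)) with hP'
  have hd' : P'.totalDegree ≤ P.totalDegree := Finset.sup_mono (MvPolynomial.support_map_subset _ _)
  have hSZ := MvPolynomial.schwartz_zippel_totalDegree hmap (univ : Finset (ZMod p))
  set Zs := (Fintype.piFinset fun _ : Fin N => (univ : Finset (ZMod p))).filter (fun x => MvPolynomial.eval x P' = 0)
    with hZs
  have h1 : Zs.card * p ≤ P.totalDegree * p ^ N := by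
    rw [card_univ, ZMod.card, div_le_div_iff₀ (by have := hp.pos; positivity) (by exact_mod_cast hp.pos)] at hSZ
    have h2 : Zs.card * p ≤ P'.totalDegree * p ^ N := by exact_mod_cast hSZ
    exact h2.trans (Nat.mul_le_mul_right _ hd')
  set Dg : Finset (Fin N → ℤ) := Fintype.piFinset fun _ => Ico (0 : ℤ) p with hDg
  have hDgc : Dg.card = p ^ N := by
    rw [hDg, Fintype.card_piFinset, prod_const, card_univ, Int.card_Ico, sub_zero, Fintype.card_fin, Int.toNat_natCast]
  have h2 : ((box2 (Fin N) p).filter fun u => (p : ℤ) ∣ MvPolynomial.eval u P).card ≤ (Zs ×ˢ Dg).card := by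
    refine card_le_card_of_injOn (fun u => (fun i => ((u i : ℤ) : ZMod p), fun i => u i / p)) (fun u hu => ?_) ?_
    · rw [Finset.mem_coe, mem_filter, mem_box2] at hu
      rw [Finset.mem_coe, mem_product, hZs, mem_filter, hDg, Fintype.mem_piFinset, Fintype.mem_piFinset]
      refine ⟨⟨fun _ => mem_univ _, ?_⟩, fun i => mem_Ico.2 ⟨Int.ediv_nonneg (hu.1 i).1 hp0.le, ?_⟩⟩
      · rw [hP', ← cast_eval, ZMod.intCast_zmod_eq_zero_iff_dvd]
        exact hu.2
      · refine Int.ediv_lt_of_lt_mul hp0 ?_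
        have := (hu.1 i).2
        rwa [sq] at this
    · intro u _ w _ h
      funext i
      have h3 : ((u i : ℤ) : ZMod p) = ((w i : ℤ) : ZMod p) := congrFun (congrArg Prod.fst h) i
      have h4 : u i / (p : ℤ) = w i / (p : ℤ) := congrFun (congrArg Prod.snd h) i
      rw [ZMod.intCast_eq_intCast_iff] at h3
      have h5 : u i % (p : ℤ) = w i % (p : ℤ) := h3
      rw [← Int.emod_add_mul_ediv (u i) p, ← Int.emod_add_mul_ediv (w i) p, h4, h5]
  rw [card_product, hDgc] at h2
  calc p * ((box2 (Fin N) p).filter fun u => (p : ℤ) ∣ MvPolynomial.eval u P).card ≤ p * (Zs.card * p ^ N) :=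
        Nat.mul_le_mul_left _ h2
    _ = (Zs.card * p) * p ^ N := by ring
    _ ≤ (P.totalDegree * p ^ N) * p ^ N := Nat.mul_le_mul_right _ h1
    _ = P.totalDegree * (p ^ 2) ^ N := by rw [← pow_mul, mul_comm 2 N, pow_mul]; ring

end Pool.Agent.Helper81.Y13
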