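import Pool.Agent.Helper81.Y13.Dens
import Pool.Agent.Helper11.AB.NZ
import Pool.Agent.Helper11.AB.Rel

/-! # Linear families: almost all parameters are not of Wieferich type -/

open MvPolynomial Finset

namespace Pool.Agent.Helper81.Y13
open Pool.Agent.Helper11.AA Pool.Agent.Helper11.AB Pool.Agent.Helper69.AA Pool.Agent.Helper69.Y13

variable {n r : ℕ}

/-- the weights of the parameters of the block `i₀` -/
def blockWt (κ : Fin r → Fin n) (i₀ : Fin n) : Fin n ⊕ Fin r → ℕ :=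
  Sum.elim (fun i => if i = i₀ then 1 else 0) fun k => if κ k = i₀ then 1 else 0

lemma lin_scal (κ : Fin r → Fin n) (ss : Fin n ⊕ Fin r → ℂ) (ws : Fin r → ℂ) (i₀ i : Fin n) :
    lin κ (fun q => 2 ^ blockWt κ i₀ q * ss q) ws i = 2 ^ (if i = i₀ then 1 else 0) * lin κ ss ws i := by
  unfold lin
  rw [mul_add, mul_sum]
  congr 1
  refine sum_congr rfl fun k hk => ?_
  rw [mem_filter] at hk
  have h1 : blockWt κ i₀ (Sum.inr k) = if i = i₀ then 1 else 0 := by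
    rw [← hk.2]
    rfl
  change 2 ^ blockWt κ i₀ (Sum.inr k) * ss (Sum.inr k) * ws k = _
  rw [h1, mul_assoc]

/-- the bottom polynomial of an irreducible relation does not vanish -/
lemma bottom_of_irreducible {σ : Type} {H : MvPolynomial (Fin 2) (MvPolynomial σ ℤ)} (hH : Irreducible H)
    (h1 : 0 < H.degreeOf 1) : ∃ m, H.coeff m ≠ 0 ∧ m 0 = 0 := by
  classical
  by_contra hcon
  push Not at hcon
  have h2 : X 0 ∣ H := by
    rw [X_dvd_iff_modMonomial_eq_zero]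
    refine MvPolynomial.ext _ _ fun m => ?_
    rw [coeff_zero]
    by_cases hm : Finsupp.single 0 1 ≤ m
    · rw [coeff_modMonomial_of_le _ hm]
    · rw [coeff_modMonomial_of_not_le _ hm]
      by_contra h3
      apply hm
      rw [Finsupp.single_le_iff]
      exact Nat.one_le_iff_ne_zero.2 (hcon m h3)
  obtain ⟨g, hg⟩ := h2
  have hX : ¬ IsUnit (X 0 : MvPolynomial (Fin 2) (MvPolynomial σ ℤ)) := by
    intro h3
    have h4 := h3.map (constantCoeff : MvPolynomial (Fin 2) (MvPolynomial σ ℤ) →+* MvPolynomial σ ℤ)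
    rw [constantCoeff_X] at h4
    exact not_isUnit_zero h4
  have hgu : IsUnit g := (hH.isUnit_or_isUnit hg).resolve_left hX
  obtain ⟨c, -, hc⟩ := isUnit_iff_eq_C_of_isReduced.1 hgu
  rw [hg, hc, mul_comm] at h1
  have h3 := degreeOf_C_mul_le (X 0 : MvPolynomial (Fin 2) (MvPolynomial σ ℤ)) 1 c
  have h4 : degreeOf 1 (X 0 : MvPolynomial (Fin 2) (MvPolynomial σ ℤ)) = 0 := by
    rw [degreeOf_X, if_neg (by decide)]
  omega

/-- **the relations of a linear family are weighted homogeneous** -/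
theorem homog_lin {κ : Fin r → Fin n} {ss : Fin n ⊕ Fin r → ℂ} {ws : Fin r → ℂ}
    (hF : FamilyNZ ss (lin κ ss ws)) (hfib : ∀ s, lin κ s ws ∈ fib ss (lin κ ss ws) s)
    {H : (Fin n → ℤ) → (Fin n → ℤ) → MvPolynomial (Fin 2) (MvPolynomial (Fin n ⊕ Fin r) ℤ)}
    (hH : FamRel ss (lin κ ss ws) H) {a b : Fin n → ℤ} (hab : Indep a b) : Homog (H a b) := by
  classical
  have hz0 : ∀ i, lin κ ss ws i ≠ 0 := fun i h => hF.tr i (h ▸ isAlgebraic_zero)
  obtain ⟨i₀, hi₀⟩ : ∃ i₀, b i₀ ≠ 0 := by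
    by_contra hcon
    push Not at hcon
    have := (hab 0 1 (fun i => by rw [hcon i]; ring)).2
    exact one_ne_zero this
  obtain ⟨k, hk⟩ : ∃ k, a k ≠ 0 := by
    by_contra hcon
    push Not at hcon
    have := (hab 1 0 (fun i => by rw [hcon i]; ring)).1
    exact one_ne_zero this
  refine homog_of_scale' hz0 (δ := blockWt κ i₀) (ε := fun i => if i = i₀ then 1 else 0) ?_
    (hH.irr a b hab).ne_zero (a := a) (b := b) ?_ (hH.rel a b hab) ?_
  · have h1 := hfib (fun q => 2 ^ blockWt κ i₀ q * ss q)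
    have h2 : lin κ (fun q => 2 ^ blockWt κ i₀ q * ss q) ws =
        fun i => 2 ^ (if i = i₀ then 1 else 0) * lin κ ss ws i := funext fun i => lin_scal κ ss ws i₀ i
    rw [h2] at h1
    exact h1
  · have h1 : ∑ i, (((if i = i₀ then 1 else 0 : ℕ) : ℤ)) * b i = b i₀ := by
      rw [Finset.sum_eq_single i₀]
      · rw [if_pos rfl, Nat.cast_one, one_mul]
      · intro i _ hi
        rw [if_neg hi, Nat.cast_zero, zero_mul]
      · intro h; exact absurd (mem_univ _) h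
    rw [h1]
    exact hi₀
  · exact hH.min a b hab _ _ (hH.rel a b hab) (Or.inl (transc_family hF hk))

/-- **the density of the good parameters of a linear family** -/
theorem wief_lin {κ : Fin r → Fin n} {ss : Fin n ⊕ Fin r → ℂ} {ws : Fin r → ℂ}
    (hF : FamilyNZ ss (lin κ ss ws)) (hfib : ∀ s, lin κ s ws ∈ fib ss (lin κ ss ws) s)
    {H : (Fin n → ℤ) → (Fin n → ℤ) → MvPolynomial (Fin 2) (MvPolynomial (Fin n ⊕ Fin r) ℤ)}
    (hH : FamRel ss (lin κ ss ws) H) (K : ℕ) {P : MvPolynomial (Fin n ⊕ Fin r) ℤ} (hP : P ≠ 0)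
    (sh : Fin n ⊕ Fin r → ℤ) {vv : ℕ → AbsoluteValue ℂ ℝ} (hvv : ∀ p, IsNonarchimedean (vv p))
    (hvp : ∀ p : ℕ, p.Prime → vv p (p : ℂ) < 1) :
    ∃ (p₀ : ℕ) (G : ℕ → Set (Fin n ⊕ Fin r → ℤ)),
      (∀ (p : ℕ) (u w : Fin n ⊕ Fin r → ℤ), (∀ i, (p : ℤ) ^ 2 ∣ u i - w i) → u ∈ G p → w ∈ G p) ∧
      (∀ p : ℕ, p.Prime → p₀ ≤ p → ((p : ℝ) ^ 2) ^ Fintype.card (Fin n ⊕ Fin r) / 2 ≤
        (Set.ncard {u | (∀ i, 0 ≤ u i ∧ u i < (p : ℤ) ^ 2) ∧ u ∈ G p} : ℝ)) ∧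
      ∀ (p : ℕ) (u : Fin n ⊕ Fin r → ℤ), u ∈ G p → ¬ (p : ℤ) ∣ eval u P ∧
        ∀ s : Fin n ⊕ Fin r → ℤ, (∀ κ, (p : ℤ) ^ 2 ∣ s κ - (u κ - p * sh κ)) →
          ∀ a b : Fin n → ℤ, (∀ i, |a i| ≤ K) → (∀ i, |b i| ≤ K) → Indep a b →
            NonWief (vv p) p (map (eval s) (H a b)) := by
  classical
  set B : Finset ((Fin n → ℤ) × (Fin n → ℤ)) := (boxK n K).filter fun q => Indep q.1 q.2 with hB
  obtain ⟨p₀, G, h1, h2, h3⟩ := wief_density (ι := {q : (Fin n → ℤ) × (Fin n → ℤ) // q ∈ B})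
    (H := fun q => H q.1.1 q.1.2)
    (fun q => bottom_of_irreducible (hH.irr _ _ (mem_filter.1 q.2).2) (hH.deg₁ _ _ (mem_filter.1 q.2).2))
    (fun q => homog_lin hF hfib hH (mem_filter.1 q.2).2) hP sh hvv hvp
  refine ⟨p₀, G, h1, h2, fun p u hu => ⟨(h3 p u hu).1, fun s hs a b ha hb hab => ?_⟩⟩
  exact (h3 p u hu).2 s hs ⟨(a, b), mem_filter.2 ⟨mem_boxK ha hb, hab⟩⟩

end Pool.Agent.Helper81.Y13
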