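import Pool.Agent.Helper81.AA.Near

/-! # The relations of a family which is invariant under a scaling are quasi-homogeneous -/

open MvPolynomial Finset

namespace Pool.Agent.Helper81.Y13
open Pool.Agent.Helper20.DL Pool.Agent.Helper69.DL Pool.Agent.Helper69.AA Pool.Agent.Helper81.AA

variable {σ : Type} [Fintype σ] {n : ℕ}

/-- the weight of a monomial -/
def wtS (δ : σ → ℕ) (μ : σ →₀ ℕ) : ℕ := ∑ κ, δ κ * μ κ

/-- the substitution `S_κ ↦ 2 ^ δ_κ S_κ` -/
noncomputable def scalP (δ : σ → ℕ) (q : MvPolynomial σ ℤ) : MvPolynomial σ ℤ :=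
  ∑ μ ∈ q.support, monomial μ (2 ^ wtS δ μ * q.coeff μ)

lemma coeff_scalP (δ : σ → ℕ) (q : MvPolynomial σ ℤ) (μ : σ →₀ ℕ) :
    (scalP δ q).coeff μ = 2 ^ wtS δ μ * q.coeff μ := by
  classical
  rw [scalP, coeff_sum]
  simp only [coeff_monomial]
  rw [Finset.sum_ite_eq' q.support μ]
  split_ifs with h
  · rfl
  · rw [notMem_support_iff.1 h, mul_zero]

lemma totalDegree_scalP (δ : σ → ℕ) (q : MvPolynomial σ ℤ) : (scalP δ q).totalDegree ≤ q.totalDegree := by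
  refine Finset.sup_mono fun μ hμ => ?_
  rw [mem_support_iff, coeff_scalP] at hμ
  rw [mem_support_iff]
  exact right_ne_zero_of_mul hμ

lemma scalP_ne_zero {δ : σ → ℕ} {q : MvPolynomial σ ℤ} (h : q ≠ 0) : scalP δ q ≠ 0 := by
  obtain ⟨μ, hμ⟩ := MvPolynomial.ne_zero_iff.1 h
  intro h0
  have h1 := coeff_scalP δ q μ
  rw [h0, coeff_zero] at h1
  exact mul_ne_zero (pow_ne_zero _ two_ne_zero) hμ h1.symm

lemma aeval_scalP (δ : σ → ℕ) (q : MvPolynomial σ ℤ) (s : σ → ℂ) :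
    aeval s (scalP δ q) = aeval (fun κ => 2 ^ δ κ * s κ) q := by
  conv_rhs => rw [q.as_sum]
  rw [scalP, map_sum, map_sum]
  refine sum_congr rfl fun μ _ => ?_
  rw [aeval_monomial, aeval_monomial, Finsupp.prod_fintype _ _ (fun i => pow_zero _),
    Finsupp.prod_fintype _ _ (fun i => pow_zero _)]
  simp only [mul_pow, prod_mul_distrib, ← pow_mul]
  rw [Finset.prod_pow_eq_pow_sum, eq_intCast, eq_intCast, wtS]
  push_cast
  ring

/-- **quasi-homogeneity** of the relation -/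
theorem homog_of_scale {ss : σ → ℂ} {zs : Fin n → ℂ} (hz0 : ∀ i, zs i ≠ 0) {δ : σ → ℕ} {ε : Fin n → ℕ}
    (hscal : (fun i => 2 ^ ε i * zs i) ∈ fib ss zs fun κ => 2 ^ δ κ * ss κ)
    {H : MvPolynomial (Fin 2) (MvPolynomial σ ℤ)} (hH0 : H ≠ 0) {a b : Fin n → ℤ}
    (hrel : evs ss H (∏ i, zs i ^ a i) (∏ i, zs i ^ b i) = 0)
    (hK : ∀ G : MvPolynomial (Fin 2) (MvPolynomial σ ℤ),
      evs ss G (∏ i, zs i ^ a i) (∏ i, zs i ^ b i) = 0 → H ∣ G) :
    ∃ k : ℤ, ∀ m μ, (H.coeff m).coeff μ ≠ 0 →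
      (∑ i, (ε i : ℤ) * a i) * m 0 + (∑ i, (ε i : ℤ) * b i) * m 1 + wtS δ μ = k := by
  classical
  set A : ℤ := ∑ i, (ε i : ℤ) * a i with hA
  set D : ℤ := ∑ i, (ε i : ℤ) * b i with hD
  set x : ℂ := ∏ i, zs i ^ a i with hx
  set y : ℂ := ∏ i, zs i ^ b i with hy
  -- the scaled relation
  have hs : ∀ c : Fin n → ℤ, ∏ i, ((2 : ℂ) ^ ε i * zs i) ^ c i = 2 ^ (∑ i, (ε i : ℤ) * c i) * ∏ i, zs i ^ c i := by
    intro c
    have h2 : (2 : ℂ) ^ (∑ i, (ε i : ℤ) * c i) = ∏ i, ((2 : ℂ) ^ ε i) ^ c i := by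
      rw [Finset.prod_congr rfl fun i _ => by rw [← zpow_natCast, ← zpow_mul]]
      induction (univ : Finset (Fin n)) using Finset.induction_on with
      | empty => simp
      | insert i T hi ih => rw [sum_insert hi, prod_insert hi, zpow_add₀ two_ne_zero, ih]
    rw [h2, ← prod_mul_distrib]
    exact prod_congr rfl fun i _ => mul_zpow _ _ _
  have hrel2 : evs (fun κ => 2 ^ δ κ * ss κ) H (2 ^ A * x) (2 ^ D * y) = 0 := by
    have h1 := evs_fib hz0 hrel hscal (fun i hi => absurd hi (mul_ne_zero (pow_ne_zero _ two_ne_zero) (hz0 i)))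
    rw [hs, hs] at h1
    exact h1
  obtain ⟨M, hM⟩ : ∃ M : ℕ, ∀ m ∈ H.support, 0 ≤ (M : ℤ) + A * m 0 + D * m 1 := by
    refine ⟨∑ m ∈ H.support, (A * m 0 + D * m 1).natAbs, fun m hm => ?_⟩
    have h1 : (A * m 0 + D * m 1).natAbs ≤ ∑ m ∈ H.support, (A * m 0 + D * m 1).natAbs :=
      single_le_sum (f := fun m : Fin 2 →₀ ℕ => (A * m 0 + D * m 1).natAbs) (fun _ _ => Nat.zero_le _) hm
    have h2 : |A * m 0 + D * m 1| ≤ ((∑ m ∈ H.support, (A * m 0 + D * m 1).natAbs : ℕ) : ℤ) := by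
      rw [Int.abs_eq_natAbs]
      exact_mod_cast h1
    have h3 := neg_abs_le (A * (m 0 : ℤ) + D * (m 1 : ℤ))
    linarith
  set H2 : MvPolynomial (Fin 2) (MvPolynomial σ ℤ) := ∑ m ∈ H.support,
    monomial m (C (2 ^ ((M : ℤ) + A * m 0 + D * m 1).toNat) * scalP δ (H.coeff m)) with hH2
  have hc2 : ∀ m, H2.coeff m = C (2 ^ ((M : ℤ) + A * m 0 + D * m 1).toNat) * scalP δ (H.coeff m) := by
    intro m
    rw [hH2, coeff_sum]
    simp only [coeff_monomial]
    rw [Finset.sum_ite_eq' H.support m]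
    split_ifs with h
    · rfl
    · rw [notMem_support_iff.1 h, scalP]
      simp
  have hsupp : H2.support ⊆ H.support := by
    intro m hm
    rw [mem_support_iff, hc2] at hm
    rw [mem_support_iff]
    rintro h0
    apply hm
    rw [h0, scalP]
    simp
  have hev2 : evs ss H2 x y = 0 := by
    have h1 : evs ss H2 x y = ∑ m ∈ H.support, aeval ss (H2.coeff m) * x ^ m 0 * y ^ m 1 := by
      rw [evs_eq_sum]
      refine sum_subset hsupp fun m _ hm => ?_
      rw [notMem_support_iff.1 hm, map_zero, zero_mul, zero_mul]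
    rw [h1]
    have h2 : ∀ m ∈ H.support, aeval ss (H2.coeff m) * x ^ m 0 * y ^ m 1 =
        2 ^ M * (aeval (fun κ => 2 ^ δ κ * ss κ) (H.coeff m) * (2 ^ A * x) ^ m 0 * (2 ^ D * y) ^ m 1) := by
      intro m hm
      rw [hc2, map_mul, aeval_scalP, aeval_C]
      have h3 : algebraMap ℤ ℂ (2 ^ ((M : ℤ) + A * m 0 + D * m 1).toNat) =
          (2 : ℂ) ^ M * ((2 : ℂ) ^ A) ^ m 0 * ((2 : ℂ) ^ D) ^ m 1 := by
        rw [eq_intCast]
        push_cast
        rw [← zpow_natCast, Int.toNat_of_nonneg (hM m hm), zpow_add₀ two_ne_zero, zpow_add₀ two_ne_zero,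
          zpow_natCast, zpow_mul, zpow_mul, zpow_natCast, zpow_natCast]
      rw [h3, mul_pow, mul_pow]
      ring
    rw [sum_congr rfl h2, ← mul_sum, ← evs_eq_sum, hrel2, mul_zero]
  obtain ⟨q, hq⟩ := hK H2 hev2
  have hH20 : H2 ≠ 0 := by
    obtain ⟨m, hm⟩ := MvPolynomial.ne_zero_iff.1 hH0
    intro h0
    have h1 := hc2 m
    rw [h0, coeff_zero] at h1
    refine mul_ne_zero ?_ (scalP_ne_zero hm) h1.symm
    rw [Ne, C_eq_zero]
    exact pow_ne_zero _ two_ne_zero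
  have hq0 : q ≠ 0 := by
    rintro rfl
    rw [mul_zero] at hq
    exact hH20 hq
  have hqd : q.totalDegree = 0 := by
    have h1 := MvPolynomial.totalDegree_mul_of_isDomain hH0 hq0
    rw [← hq] at h1
    have h2 : H2.totalDegree ≤ H.totalDegree := Finset.sup_mono hsupp
    omega
  rw [totalDegree_eq_zero_iff_eq_C] at hqd
  set q₀ := q.coeff 0 with hq₀
  have hcm : ∀ m, H2.coeff m = H.coeff m * q₀ := by
    intro m
    rw [hq, hqd, mul_comm, coeff_C_mul, mul_comm]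
  have hq₀0 : q₀ ≠ 0 := by
    intro h0
    apply hq0
    rw [hqd, h0, C_0]
  have hq₀d : q₀.totalDegree = 0 := by
    obtain ⟨m, hm⟩ := MvPolynomial.ne_zero_iff.1 hH0
    have h1 := MvPolynomial.totalDegree_mul_of_isDomain hm hq₀0
    rw [← hcm, hc2] at h1
    have h2 : (C (2 ^ ((M : ℤ) + A * m 0 + D * m 1).toNat) * scalP δ (H.coeff m)).totalDegree ≤
        (H.coeff m).totalDegree := by
      refine (totalDegree_mul _ _).trans ?_
      rw [totalDegree_C, zero_add]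
      exact totalDegree_scalP δ _
    omega
  rw [totalDegree_eq_zero_iff_eq_C] at hq₀d
  set N := q₀.coeff 0 with hN
  -- all weights are equal
  have key : ∀ m μ, (H.coeff m).coeff μ ≠ 0 →
      (2 : ℤ) ^ (((M : ℤ) + A * m 0 + D * m 1).toNat + wtS δ μ) = N := by
    intro m μ hmu
    have h1 := congrArg (coeff μ) (hcm m)
    rw [hc2, hq₀d, coeff_C_mul, mul_comm (coeff m H), coeff_C_mul, coeff_scalP] at h1
    have h2 : ((2 : ℤ) ^ (((M : ℤ) + A * m 0 + D * m 1).toNat + wtS δ μ)) * (H.coeff m).coeff μ =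
        N * (H.coeff m).coeff μ := by
      rw [pow_add]
      linear_combination h1
    exact mul_right_cancel₀ hmu h2
  obtain ⟨m₁, hm₁⟩ := MvPolynomial.ne_zero_iff.1 hH0
  obtain ⟨μ₁, hμ₁⟩ := MvPolynomial.ne_zero_iff.1 hm₁
  refine ⟨A * m₁ 0 + D * m₁ 1 + wtS δ μ₁, fun m μ hmu => ?_⟩
  have h1 := (key m μ hmu).trans (key m₁ μ₁ hμ₁).symm
  have h2 := Int.pow_right_injective (le_refl 2) h1
  have hms : m ∈ H.support := by
    rw [mem_support_iff]
    rintro h0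
    rw [h0, coeff_zero] at hmu
    exact hmu rfl
  have h3 := hM m hms
  have h4 := hM m₁ (mem_support_iff.2 hm₁)
  have h5 := Int.toNat_of_nonneg h3
  have h6 := Int.toNat_of_nonneg h4
  have h7 : ((((M : ℤ) + A * m 0 + D * m 1).toNat + wtS δ μ : ℕ) : ℤ) =
      ((((M : ℤ) + A * m₁ 0 + D * m₁ 1).toNat + wtS δ μ₁ : ℕ) : ℤ) := by exact_mod_cast h2
  rw [Nat.cast_add, Nat.cast_add, h5, h6] at h7
  linarith

end Pool.Agent.Helper81.Y13
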