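import Pool.Agent.Helper81.Y13.Place

/-! # Roots of unity near to an unramified root -/

open Polynomial

namespace Pool.Agent.Helper81.Y13
open Pool.Agent.Helper20.DL Pool.Agent.Helper20.ZD Pool.Agent.Helper81.DL

variable {v : AbsoluteValue ℂ ℝ}

lemma aeval_toMv (F : ℤ[X]) (x y : ℂ) :
    MvPolynomial.aeval ![x, y] (aeval (MvPolynomial.X 1 : MvPolynomial (Fin 2) ℤ) F) = aeval y F := by
  rw [← Polynomial.aeval_algHom_apply, MvPolynomial.aeval_X]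
  rfl

/-- the unramified lemma for one variable -/
lemma unram_one (hv : IsNonarchimedean v) {p : ℕ} (hp : p.Prime) (F : ℤ[X]) {M : ℕ} (hM : M.Coprime p) {ζ : ℂ}
    (hζ : ζ ^ M = 1) (h : v (aeval ζ F) < 1) : v (aeval ζ F) ≤ v (p : ℂ) := by
  have h1 := unram hv hp (aeval (MvPolynomial.X 1 : MvPolynomial (Fin 2) ℤ) F) hM hζ hζ
  rw [aeval_toMv] at h1
  exact h1 h

/-- a root which is near to a root of unity of order prime to `p` is very near to it -/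
lemma unram_root (hv : IsNonarchimedean v) {p : ℕ} (hp : p.Prime) {F : ℤ[X]} {κ ζ : ℂ}
    (hκ : v κ ≤ 1) (hF : aeval κ F = 0) (hF' : v (aeval κ (derivative F)) = 1) {M : ℕ} (hM : M.Coprime p)
    (hM0 : 0 < M) (hζ : ζ ^ M = 1) (h : v (κ - ζ) < 1) : v (κ - ζ) ≤ v (p : ℂ) := by
  have hζ1 : v ζ ≤ 1 := (val_root hM0 hζ).le
  have h' : v (ζ - κ) < 1 := by rwa [← neg_sub, v.map_neg]
  have h1 := near_root hv F hκ hζ1 hF' h'
  rw [hF, sub_zero] at h1
  rw [← neg_sub, v.map_neg, h1]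
  exact unram_one hv hp F hM hζ (h1 ▸ h')

/-- **the order is prime to `p`** -/
theorem order_coprime (hv : IsNonarchimedean v) {p : ℕ} (hp : p.Prime) (hp3 : 3 ≤ p) (hvp : v (p : ℂ) < 1)
    {F : ℤ[X]} {κ η : ℂ} (hκ : v κ ≤ 1) (hF : aeval κ F = 0) (hF' : v (aeval κ (derivative F)) = 1)
    {g : ℕ} (hg : 0 < g) (hη : η ^ g = 1) (hlt : v (κ - η) < v (p : ℂ)) : ∃ M : ℕ, 0 < M ∧ M.Coprime p ∧ η ^ M = 1 := by
  obtain ⟨a, M, hM, hgM⟩ := Nat.exists_eq_pow_mul_and_not_dvd hg.ne' p hp.ne_one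
  have hMp : M.Coprime p := ((Nat.Prime.coprime_iff_not_dvd hp).2 hM).symm
  have hM0 : 0 < M := by
    rcases Nat.eq_zero_or_pos M with h | h
    · exact absurd (h ▸ dvd_zero p) hM
    · exact h
  obtain ⟨k, hk, hk'⟩ := exists_pow_eq hMp
  have hK : ∀ (j : ℕ) (x : ℂ), x ^ M = 1 → x ^ p ^ (k * j) = x := by
    intro j
    induction j with
    | zero => intro x _; rw [mul_zero, pow_zero, pow_one]
    | succ j ih =>
      intro x hx
      rw [Nat.mul_succ, pow_add, pow_mul, ih x hx, hk' x hx]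
  have haK : a ≤ k * a := Nat.le_mul_of_pos_left a hk
  set ζ := η ^ p ^ (k * a) with hζ
  have hη0 : η ≠ 0 := by
    rintro rfl
    rw [zero_pow hg.ne'] at hη
    exact zero_ne_one hη
  have hζM : ζ ^ M = 1 := by
    rw [hζ, ← pow_mul, show p ^ (k * a) * M = (p ^ a * M) * p ^ (k * a - a) by
      rw [← Nat.pow_sub_mul_pow p haK]; ring, pow_mul, ← hgM, hη, one_pow]
  have hζK := hK a ζ hζM
  have hζ0 : ζ ≠ 0 := pow_ne_zero _ hη0
  set ξ := η * ζ⁻¹ with hξ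
  have hξK : ξ ^ p ^ (k * a) = 1 := by
    rw [hξ, mul_pow, inv_pow, hζK, ← hζ, mul_inv_cancel₀ hζ0]
  have hηζ : η = ξ * ζ := by rw [hξ, mul_assoc, inv_mul_cancel₀ hζ0, mul_one]
  by_cases hξ1 : ξ = 1
  · refine ⟨M, hM0, hMp, ?_⟩
    rw [hηζ, hξ1, one_mul, hζM]
  exfalso
  obtain ⟨j, -, hj⟩ := (Nat.dvd_prime_pow hp).1 (orderOf_dvd_of_pow_eq_one hξK)
  obtain ⟨j, rfl⟩ : ∃ i, j = i + 1 := by
    rcases Nat.eq_zero_or_pos j with h | h
    · rw [h, pow_zero, orderOf_eq_one_iff] at hj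
      exact absurd hj hξ1
    · exact ⟨j - 1, by omega⟩
  have hprim : IsPrimitiveRoot ξ (p ^ (j + 1)) := hj ▸ IsPrimitiveRoot.orderOf ξ
  have h1 := val_T hv hp hprim
  have h2 := val_T_lt hv hp hvp hprim
  have h3 := val_T_pos (v := v) hp hprim
  have htot : 2 ≤ Nat.totient (p ^ (j + 1)) := by
    rw [Nat.totient_prime_pow_succ hp]
    have h4 : 1 ≤ p ^ j := Nat.one_le_pow _ _ hp.pos
    have h5 : 2 ≤ p - 1 := by omega
    calc 2 = 1 * 2 := rfl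
      _ ≤ p ^ j * (p - 1) := Nat.mul_le_mul h4 h5
  have h4 : v (p : ℂ) < v (ξ - 1) := by
    rw [← h1]
    calc v (ξ - 1) ^ Nat.totient (p ^ (j + 1)) ≤ v (ξ - 1) ^ 2 := pow_le_pow_of_le_one h3.le h2.le htot
      _ < v (ξ - 1) := by
        rw [sq]
        exact mul_lt_of_lt_one_left h3 h2
  have hvζ : v ζ = 1 := val_root hM0 hζM
  have h5 : v (η - ζ) = v (ξ - 1) := by
    rw [hηζ, show ξ * ζ - ζ = (ξ - 1) * ζ by ring, map_mul, hvζ, mul_one]
  have h6 : v (κ - ζ) < 1 := by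
    rw [show κ - ζ = (κ - η) + (η - ζ) by ring]
    exact (hv _ _).trans_lt (max_lt (hlt.trans hvp) (h5 ▸ h2))
  have h7 := unram_root hv hp hκ hF hF' hMp hM0 hζM h6
  have h8 : v (η - ζ) ≤ v (p : ℂ) := by
    rw [show η - ζ = (κ - ζ) - (κ - η) by ring, sub_eq_add_neg]
    refine (hv _ _).trans (max_le h7 ?_)
    rw [v.map_neg]
    exact hlt.le
  rw [h5] at h8
  exact absurd h4 (not_lt.2 h8)

end Pool.Agent.Helper81.Y13
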