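import Pool.Agent.Helper81.DL.Unram

/-! # Integral polynomials in one variable at a place -/

open Polynomial

namespace Pool.Agent.Helper81.Y13
open Pool.Agent.Helper20.DL

variable {v : AbsoluteValue ℂ ℝ}

/-- the valuation ring -/
def vO (hv : IsNonarchimedean v) : Subring ℂ where
  carrier := {x | v x ≤ 1}
  mul_mem' := by
    intro a b ha hb
    have ha' : v a ≤ 1 := ha
    have hb' : v b ≤ 1 := hb
    change v (a * b) ≤ 1
    rw [map_mul]
    exact mul_le_one₀ ha' (v.nonneg _) hb'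
  one_mem' := by
    change v 1 ≤ 1
    rw [map_one]
  add_mem' := by
    intro a b ha hb
    exact (hv _ _).trans (max_le ha hb)
  zero_mem' := by
    change v 0 ≤ 1
    rw [map_zero]; exact zero_le_one
  neg_mem' := by
    intro a ha
    change v (-a) ≤ 1
    rw [v.map_neg]; exact ha

lemma aeval_vO (hv : IsNonarchimedean v) (F : ℤ[X]) {x : ℂ} (hx : v x ≤ 1) :
    aeval x F = ((eval (⟨x, hx⟩ : vO hv) (F.map (Int.castRingHom (vO hv))) : vO hv) : ℂ) := by
  have h1 : (vO hv).subtype.comp (Int.castRingHom (vO hv)) = algebraMap ℤ ℂ := RingHom.ext_int _ _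
  have h2 : ((vO hv).subtype) ⟨x, hx⟩ = x := rfl
  rw [← Subring.coe_subtype, ← Polynomial.eval₂_hom, ← Polynomial.eval_map, Polynomial.map_map, h1, h2,
    Polynomial.eval_map, aeval_def]

lemma v_aeval_le (hv : IsNonarchimedean v) (F : ℤ[X]) {x : ℂ} (hx : v x ≤ 1) : v (aeval x F) ≤ 1 := by
  rw [aeval_vO hv F hx]
  exact (eval (⟨x, hx⟩ : vO hv) (F.map (Int.castRingHom (vO hv)))).2

lemma v_taylor (hv : IsNonarchimedean v) (F : ℤ[X]) {x y : ℂ} (hx : v x ≤ 1) (hy : v y ≤ 1) :
    v (aeval y F - aeval x F - (y - x) * aeval x (derivative F)) ≤ v (y - x) ^ 2 := by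
  have hyx : v (y - x) ≤ 1 := by
    rw [sub_eq_add_neg]
    exact (hv _ _).trans (max_le hy (by rw [v.map_neg]; exact hx))
  obtain ⟨k, hk⟩ := binomExpansion (F.map (Int.castRingHom (vO hv))) (⟨x, hx⟩ : vO hv) ⟨y - x, hyx⟩
  have h1 : (⟨x, hx⟩ : vO hv) + ⟨y - x, hyx⟩ = ⟨y, hy⟩ := by
    apply Subtype.ext
    change x + (y - x) = y
    ring
  rw [h1, derivative_map] at hk
  have h2 := congrArg (Subtype.val) hk
  rw [← aeval_vO hv F hy] at h2
  have h3 : aeval y F = aeval x F + aeval x (derivative F) * (y - x) + (k : ℂ) * (y - x) ^ 2 := by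
    rw [h2, aeval_vO hv F hx, aeval_vO hv (derivative F) hx]
    rfl
  have h4 : aeval y F - aeval x F - (y - x) * aeval x (derivative F) = (k : ℂ) * (y - x) ^ 2 := by
    rw [h3]; ring
  rw [h4, map_mul, map_pow]
  have h5 : v (k : ℂ) ≤ 1 := k.2
  exact mul_le_of_le_one_left (by positivity) h5

/-- near to a simple zero modulo the maximal ideal -/
lemma near_root (hv : IsNonarchimedean v) (F : ℤ[X]) {x y : ℂ} (hx : v x ≤ 1) (hy : v y ≤ 1)
    (hF : v (aeval x (derivative F)) = 1) (h : v (y - x) < 1) : v (y - x) = v (aeval y F - aeval x F) := by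
  rcases eq_or_ne (v (y - x)) 0 with h0 | h0
  · have h1 : y = x := by
      rw [v.eq_zero, sub_eq_zero] at h0
      exact h0
    rw [h1, sub_self, sub_self]
  have h0' : 0 < v (y - x) := lt_of_le_of_ne (v.nonneg _) (Ne.symm h0)
  have h1 := v_taylor hv F hx hy
  set e := aeval y F - aeval x F - (y - x) * aeval x (derivative F) with he
  have h2 : v e < v ((y - x) * aeval x (derivative F)) := by
    rw [map_mul, hF, mul_one]
    refine h1.trans_lt ?_
    rw [sq]
    exact mul_lt_of_lt_one_left h0' h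
  have h3 : aeval y F - aeval x F = e + (y - x) * aeval x (derivative F) := by rw [he]; ring
  rw [h3, hv.add_eq_max_of_ne h2.ne, max_eq_right h2.le, map_mul, hF, mul_one]

lemma v_aeval_sub (hv : IsNonarchimedean v) {F G : ℤ[X]} {d : ℤ} (h : ∀ j, d ∣ F.coeff j - G.coeff j) {x : ℂ}
    (hx : v x ≤ 1) : v (aeval x F - aeval x G) ≤ v (d : ℂ) := by
  have h1 : C d ∣ F - G := by
    rw [C_dvd_iff_dvd_coeff]
    intro j
    rw [coeff_sub]
    exact h j
  obtain ⟨S, hS⟩ := h1
  rw [← map_sub, hS, map_mul, aeval_C, map_mul, eq_intCast]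
  exact mul_le_of_le_one_right (v.nonneg _) (v_aeval_le hv S hx)

lemma v_diff_le (hv : IsNonarchimedean v) (F : ℤ[X]) {x y : ℂ} (hx : v x ≤ 1) (hy : v y ≤ 1) :
    v (aeval y F - aeval x F) ≤ v (y - x) := by
  have h1 := v_taylor hv F hx hy
  have hyx : v (y - x) ≤ 1 := by
    rw [sub_eq_add_neg]
    exact (hv _ _).trans (max_le hy (by rw [v.map_neg]; exact hx))
  have h2 : aeval y F - aeval x F = (aeval y F - aeval x F - (y - x) * aeval x (derivative F)) +
      (y - x) * aeval x (derivative F) := by ring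
  rw [h2]
  refine (hv _ _).trans (max_le (h1.trans ?_) ?_)
  · exact pow_le_of_le_one (v.nonneg _) hyx two_ne_zero
  · rw [map_mul]
    exact mul_le_of_le_one_right (v.nonneg _) (v_aeval_le hv _ hx)

lemma one_le_prod_of {T : Multiset ℝ} (h : ∀ a ∈ T, 1 ≤ a) : 1 ≤ T.prod := by
  induction T using Multiset.induction_on with
  | empty => rw [Multiset.prod_zero]
  | cons a T ih =>
    rw [Multiset.prod_cons]
    have h1 := h a (Multiset.mem_cons_self _ _)
    have h2 := ih fun b hb => h b (Multiset.mem_cons_of_mem hb)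
    nlinarith

/-- a root near to a point at which the value is small -/
lemma exists_near_root {F : ℂ[X]} (hF : v F.leadingCoeff = 1) {x : ℂ}
    (h : v (F.eval x) < 1) : ∃ ρ ∈ F.roots, v (x - ρ) < 1 := by
  by_contra hcon
  push Not at hcon
  have h1 := (IsAlgClosed.splits F).eval_eq_prod_roots x
  rw [h1, map_mul, hF, one_mul, map_multiset_prod, Multiset.map_map] at h
  refine absurd h (not_lt.2 ?_)
  refine one_le_prod_of ?_
  intro a ha
  rw [Multiset.mem_map] at ha
  obtain ⟨ρ, hρ, rfl⟩ := ha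
  exact hcon ρ hρ

end Pool.Agent.Helper81.Y13
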