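import Pool.Agent.Helper81.Y13.Place

/-! # Powers of elements near to one -/

open Finset

namespace Pool.Agent.Helper81.Y13
open Pool.Agent.Helper20.DL Pool.Agent.Helper20.ZD

variable {v : AbsoluteValue ℂ ℝ}

lemma v_eq_one_of_near (hv : IsNonarchimedean v) {x : ℂ} (h : v (x - 1) < 1) : v x = 1 := by
  have h1 : v (x - 1) < v 1 := by rw [map_one]; exact h
  have h2 : x = (x - 1) + 1 := by ring
  rw [h2, hv.add_eq_max_of_ne h1.ne, max_eq_right h1.le, map_one]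

lemma v_pow_sub_one_lt (hv : IsNonarchimedean v) {x : ℂ} (h : v (x - 1) < 1) (n : ℕ) : v (x ^ n - 1) < 1 :=
  (val_pow_sub_one hv (v_eq_one_of_near hv h).le n).trans_lt h

lemma v_mul_sub_one_lt (hv : IsNonarchimedean v) {x y : ℂ} (hx : v (x - 1) < 1) (hy : v (y - 1) < 1) :
    v (x * y - 1) < 1 := by
  rw [show x * y - 1 = (x - 1) * y + (y - 1) by ring]
  refine (hv _ _).trans_lt (max_lt ?_ hy)
  rw [map_mul, v_eq_one_of_near hv hy, mul_one]
  exact hx

lemma v_inv_sub_one_lt (hv : IsNonarchimedean v) {x : ℂ} (hx : v (x - 1) < 1) : v (x⁻¹ - 1) < 1 := by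
  have h1 := v_eq_one_of_near hv hx
  have hx0 : x ≠ 0 := by
    rintro rfl
    rw [map_zero] at h1
    exact zero_ne_one h1
  have h2 : x⁻¹ - 1 = -((x - 1) * x⁻¹) := by
    field_simp
    ring
  rw [h2, v.map_neg, map_mul, map_inv₀, h1, inv_one, mul_one]
  exact hx

lemma v_zpow_sub_one_lt (hv : IsNonarchimedean v) {x : ℂ} (h : v (x - 1) < 1) (c : ℤ) : v (x ^ c - 1) < 1 := by
  obtain ⟨n, rfl | rfl⟩ := c.eq_nat_or_neg
  · rw [zpow_natCast]
    exact v_pow_sub_one_lt hv h n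
  · rw [zpow_neg, zpow_natCast]
    exact v_inv_sub_one_lt hv (v_pow_sub_one_lt hv h n)

lemma v_pow_sub_pow_eq (hv : IsNonarchimedean v) {x y : ℂ} (hx : v (x - 1) < 1) (hy : v (y - 1) < 1) {n : ℕ}
    (hn : v (n : ℂ) = 1) : v (x ^ n - y ^ n) = v (x - y) := by
  have h1 : (∑ i ∈ range n, x ^ i * y ^ (n - 1 - i)) * (x - y) = x ^ n - y ^ n := geom_sum₂_mul x y n
  have h2 : v ((∑ i ∈ range n, x ^ i * y ^ (n - 1 - i)) - n) < v (n : ℂ) := by
    rw [hn]
    have h3 : (∑ i ∈ range n, x ^ i * y ^ (n - 1 - i)) - (n : ℂ) = ∑ i ∈ range n, (x ^ i * y ^ (n - 1 - i) - 1) := by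
      rw [sum_sub_distrib, sum_const, card_range, nsmul_eq_mul, mul_one]
    rw [h3]
    refine (Finset.induction_on (range n) (motive := fun T => v (∑ i ∈ T, (x ^ i * y ^ (n - 1 - i) - 1)) < 1) ?_ ?_)
    · rw [sum_empty, map_zero]; exact zero_lt_one
    · intro i T hi ih
      rw [sum_insert hi]
      exact (hv _ _).trans_lt (max_lt (v_mul_sub_one_lt hv (v_pow_sub_one_lt hv hx _) (v_pow_sub_one_lt hv hy _)) ih)
  rw [← h1, map_mul]
  have h4 : (∑ i ∈ range n, x ^ i * y ^ (n - 1 - i)) = ((∑ i ∈ range n, x ^ i * y ^ (n - 1 - i)) - n) + n := by ring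
  rw [h4, hv.add_eq_max_of_ne h2.ne, max_eq_right h2.le, hn, one_mul]

/-- powers of one-units -/
lemma v_zpow_sub_zpow (hv : IsNonarchimedean v) {x y : ℂ} (hx : v (x - 1) < 1) (hy : v (y - 1) < 1) {c : ℤ}
    (hc : v (c : ℂ) = 1) : v (x ^ c - y ^ c) = v (x - y) := by
  obtain ⟨n, rfl | rfl⟩ := c.eq_nat_or_neg
  · rw [zpow_natCast, zpow_natCast]
    exact v_pow_sub_pow_eq hv hx hy (by simpa using hc)
  · have hn : v (n : ℂ) = 1 := by
      rw [Int.cast_neg, v.map_neg] at hc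
      simpa using hc
    have hx1 := v_eq_one_of_near hv (v_pow_sub_one_lt hv hx n)
    have hy1 := v_eq_one_of_near hv (v_pow_sub_one_lt hv hy n)
    have hx0 : x ^ n ≠ 0 := by
      intro h
      rw [h, map_zero] at hx1
      exact zero_ne_one hx1
    have hy0 : y ^ n ≠ 0 := by
      intro h
      rw [h, map_zero] at hy1
      exact zero_ne_one hy1
    rw [zpow_neg, zpow_neg, zpow_natCast, zpow_natCast]
    have h1 : (x ^ n)⁻¹ - (y ^ n)⁻¹ = -((x ^ n - y ^ n) * ((x ^ n)⁻¹ * (y ^ n)⁻¹)) := by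
      field_simp
      ring
    rw [h1, v.map_neg, map_mul, map_mul, map_inv₀, map_inv₀, hx1, hy1, inv_one, mul_one, mul_one]
    exact v_pow_sub_pow_eq hv hx hy hn

end Pool.Agent.Helper81.Y13
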