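import Pool.Agent.Helper81.Y13.Hom

/-! # The bottom polynomial of a relation and the scaling of its roots -/

open Polynomial

namespace Pool.Agent.Helper81.Y13
open Pool.Agent.Helper20.DL

variable {σ : Type}

/-- the bottom polynomial `H(0, Y)` -/
noncomputable def bot (H : MvPolynomial (Fin 2) (MvPolynomial σ ℤ)) : (MvPolynomial σ ℤ)[X] :=
  MvPolynomial.aeval ![0, Polynomial.X] H

lemma coeff_bot (H : MvPolynomial (Fin 2) (MvPolynomial σ ℤ)) (j : ℕ) :
    (bot H).coeff j = H.coeff (Finsupp.single 1 j) := by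
  classical
  induction H using MvPolynomial.induction_on' with
  | monomial m a =>
    rw [bot, MvPolynomial.aeval_monomial, Finsupp.prod_fintype _ _ (fun i => pow_zero _), Fin.prod_univ_two]
    simp only [Matrix.cons_val_zero, Matrix.cons_val_one]
    have h0 : algebraMap (MvPolynomial σ ℤ) (MvPolynomial σ ℤ)[X] a = Polynomial.C a := rfl
    rw [h0, MvPolynomial.coeff_monomial]
    by_cases hm : m 0 = 0
    · rw [hm, pow_zero, one_mul, coeff_C_mul, coeff_X_pow]
      by_cases hj : j = m 1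
      · have h1 : m = Finsupp.single 1 j := by
          ext i
          fin_cases i
          · simpa using hm
          · simpa using hj.symm
        rw [if_pos hj, if_pos h1, mul_one]
      · have h1 : m ≠ Finsupp.single 1 j := by
          rintro rfl
          apply hj
          simp
        rw [if_neg hj, if_neg h1, mul_zero]
    · have h1 : m ≠ Finsupp.single 1 j := by
        rintro rfl
        apply hm
        simp
      rw [zero_pow hm, zero_mul, mul_zero, coeff_zero, if_neg h1]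
  | add f g hf hg =>
    rw [bot, map_add, coeff_add, MvPolynomial.coeff_add]
    rw [bot] at hf hg
    rw [hf, hg]

lemma bot_ne_zero {H : MvPolynomial (Fin 2) (MvPolynomial σ ℤ)} {m : Fin 2 →₀ ℕ} (h : H.coeff m ≠ 0)
    (hm : m 0 = 0) : bot H ≠ 0 := by
  intro h0
  have h1 := coeff_bot H (m 1)
  rw [h0, coeff_zero] at h1
  apply h
  have h2 : m = Finsupp.single 1 (m 1) := by
    ext i
    fin_cases i
    · simpa using hm
    · simp
  rw [h2, ← h1]

lemma ev_bot (H : MvPolynomial (Fin 2) (MvPolynomial σ ℤ)) (s : σ → ℤ) (κ : ℂ) :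
    ev (MvPolynomial.map (MvPolynomial.eval s) H) 0 κ = aeval κ ((bot H).map (MvPolynomial.eval s)) := by
  rw [ev_eq_aeval]
  induction H using MvPolynomial.induction_on with
  | C a =>
    rw [MvPolynomial.map_C, MvPolynomial.aeval_C, bot, MvPolynomial.aeval_C]
    have h0 : algebraMap (MvPolynomial σ ℤ) (MvPolynomial σ ℤ)[X] a = Polynomial.C a := rfl
    rw [h0, Polynomial.map_C, Polynomial.aeval_C]
  | add f g hf hg =>
    rw [map_add, map_add, hf, hg, bot, bot, bot, map_add, Polynomial.map_add, map_add]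
  | mul_X f i hf =>
    rw [map_mul, map_mul, hf, bot, bot, map_mul, Polynomial.map_mul, map_mul, MvPolynomial.map_X, MvPolynomial.aeval_X,
      MvPolynomial.aeval_X]
    congr 1
    fin_cases i
    · simp
    · simp

variable [Fintype σ]

/-- the scaling of the parameters -/
def scal (δ : σ → ℕ) (τ : ℤ) (s : σ → ℤ) : σ → ℤ := fun κ => τ ^ δ κ * s κ

lemma eval_scal {δ : σ → ℕ} {q : MvPolynomial σ ℤ} {w : ℤ} (hq : ∀ μ, q.coeff μ ≠ 0 → (wtS δ μ : ℤ) = w)
    {τ : ℤ} (hτ : τ ≠ 0) (s : σ → ℤ) :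
    ((MvPolynomial.eval (scal δ τ s) q : ℤ) : ℂ) = (τ : ℂ) ^ w * ((MvPolynomial.eval s q : ℤ) : ℂ) := by
  have hτ' : (τ : ℂ) ≠ 0 := by exact_mod_cast hτ
  rw [MvPolynomial.eval_eq', MvPolynomial.eval_eq', Int.cast_sum, Int.cast_sum, Finset.mul_sum]
  refine Finset.sum_congr rfl fun μ hμ => ?_
  rw [MvPolynomial.mem_support_iff] at hμ
  rw [← hq μ hμ, zpow_natCast, wtS, ← Finset.prod_pow_eq_pow_sum]
  push_cast [scal]
  simp only [mul_pow, Finset.prod_mul_distrib, ← pow_mul]
  ring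

/-- **scaling of the roots** -/
lemma root_scal {δ : σ → ℕ} {h : (MvPolynomial σ ℤ)[X]} {c k : ℤ}
    (hh : ∀ j μ, (h.coeff j).coeff μ ≠ 0 → c * j + wtS δ μ = k) {τ : ℤ} (hτ : τ ≠ 0) {s : σ → ℤ} {κ : ℂ}
    (hκ : aeval κ (h.map (MvPolynomial.eval s)) = 0) :
    aeval ((τ : ℂ) ^ c * κ) (h.map (MvPolynomial.eval (scal δ τ s))) = 0 := by
  have hτ' : (τ : ℂ) ≠ 0 := by exact_mod_cast hτ
  rw [aeval_def, eval₂_map, eval₂_eq_sum_range] at hκ ⊢
  have h1 : ∀ j ∈ Finset.range (h.natDegree + 1),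
      ((algebraMap ℤ ℂ).comp (MvPolynomial.eval (scal δ τ s))) (h.coeff j) * ((τ : ℂ) ^ c * κ) ^ j =
        (τ : ℂ) ^ k * (((algebraMap ℤ ℂ).comp (MvPolynomial.eval s)) (h.coeff j) * κ ^ j) := by
    intro j _
    have h2 := eval_scal (δ := δ) (q := h.coeff j) (w := k - c * j) (fun μ hμ => by rw [← hh j μ hμ]; ring) hτ s
    rw [RingHom.comp_apply, RingHom.comp_apply, eq_intCast, eq_intCast, h2, mul_pow, zpow_sub₀ hτ',
      ← zpow_natCast ((τ : ℂ) ^ c) j, ← zpow_mul]
    have h3 : (τ : ℂ) ^ (c * j) ≠ 0 := zpow_ne_zero _ hτ'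
    field_simp
  rw [Finset.sum_congr rfl h1, ← Finset.mul_sum, hκ, mul_zero]

end Pool.Agent.Helper81.Y13
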