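import Mathlib

/-! # The squarefree part of a polynomial over a domain of characteristic zero -/

open Polynomial

namespace Pool.Agent.Helper81.Y13

variable {R : Type} [CommRing R] [IsDomain R] [CharZero R]

/-- **the squarefree part**, with denominators cleared -/
theorem exists_sqf {h : R[X]} (h0 : h ≠ 0) : ∃ (Q g A B : R[X]) (N : ℕ) (c Δ : R), c ≠ 0 ∧ Δ ≠ 0 ∧ Q ≠ 0 ∧
    C c * Q ^ N = h * g ∧ A * Q + B * derivative Q = C Δ := by
  classical
  set K := FractionRing R with hK
  have hinj : Function.Injective (algebraMap R K) := IsFractionRing.injective R K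
  have : CharZero K := charZero_of_injective_algebraMap hinj
  have hh0 : h.map (algebraMap R K) ≠ 0 := (Polynomial.map_ne_zero_iff hinj).2 h0
  obtain ⟨q, n, hq, hqh, hhq⟩ := exists_squarefree_dvd_pow_of_ne_zero hh0
  obtain ⟨a, b, hab⟩ := PerfectField.separable_iff_squarefree.2 hq
  obtain ⟨g₀, hg₀⟩ := hhq
  obtain ⟨r, hr, hQ⟩ := IsLocalization.integerNormalization_spec (nonZeroDivisors R) q
  obtain ⟨s, hs, hA⟩ := IsLocalization.integerNormalization_spec (nonZeroDivisors R) a
  obtain ⟨t, ht, hB⟩ := IsLocalization.integerNormalization_spec (nonZeroDivisors R) b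
  obtain ⟨c, hc, hg⟩ := IsLocalization.integerNormalization_spec (nonZeroDivisors R) g₀
  set Q := IsLocalization.integerNormalization (nonZeroDivisors R) q
  set A := IsLocalization.integerNormalization (nonZeroDivisors R) a
  set B := IsLocalization.integerNormalization (nonZeroDivisors R) b
  set G := IsLocalization.integerNormalization (nonZeroDivisors R) g₀
  have hr0 := nonZeroDivisors.ne_zero hr
  have hs0 := nonZeroDivisors.ne_zero hs
  have ht0 := nonZeroDivisors.ne_zero ht
  have hc0 := nonZeroDivisors.ne_zero hc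
  have hsm : ∀ (u : R) (f : K[X]), u • f = C (algebraMap R K u) * f := by
    intro u f
    rw [← algebraMap_smul K u f, smul_eq_C_mul]
  rw [hsm] at hQ hA hB hg
  refine ⟨Q, C (r ^ n) * G, C t * A, C s * B, n, c, s * t * r, hc0, mul_ne_zero (mul_ne_zero hs0 ht0) hr0, ?_, ?_, ?_⟩
  · rintro h1
    rw [h1, Polynomial.map_zero] at hQ
    rcases mul_eq_zero.1 hQ.symm with h2 | h2
    · rw [C_eq_zero, map_eq_zero_iff _ hinj] at h2
      exact hr0 h2
    · exact hq.ne_zero h2
  · apply Polynomial.map_injective _ hinj
    rw [Polynomial.map_mul, Polynomial.map_mul, Polynomial.map_mul, Polynomial.map_pow, map_C, map_C, hQ, hg, mul_pow,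
      hg₀, map_pow, ← C_pow]
    ring
  · apply Polynomial.map_injective _ hinj
    rw [Polynomial.map_add, Polynomial.map_mul, Polynomial.map_mul, Polynomial.map_mul, Polynomial.map_mul,
      ← derivative_map, map_C, map_C, map_C, hQ, hA, hB, derivative_C_mul]
    simp only [map_mul]
    linear_combination (C (algebraMap R K s) * C (algebraMap R K t) * C (algebraMap R K r)) * hab

end Pool.Agent.Helper81.Y13
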