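import Pool.Agent.Helper81.Y13.Pow
import Pool.Agent.Helper81.Y13.Order
import Pool.Agent.Helper81.Y13.Scale
import Pool.Agent.Helper81.Y13.Sqf
import Pool.Agent.Helper81.DL.DensP

/-! # Few scalings of a parameter are of Wieferich type -/

open Polynomial

namespace Pool.Agent.Helper81.Y13
open Pool.Agent.Helper20.DL Pool.Agent.Helper20.ZD Pool.Agent.Helper81.DL

variable {v : AbsoluteValue ℂ ℝ} {σ : Type}

/-- a root is very near to a root of unity -/
def BadRoot (v : AbsoluteValue ℂ ℝ) (p : ℕ) (F : ℤ[X]) : Prop :=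
  ∃ κ η : ℂ, aeval κ F = 0 ∧ v κ = 1 ∧ (∃ g > 0, η ^ g = 1) ∧ v (κ - η) < v (p : ℂ)

/-- this happens at a parameter in the residue class of `u` -/
def BadPt (v : AbsoluteValue ℂ ℝ) (p : ℕ) (h : (MvPolynomial σ ℤ)[X]) (u : σ → ℤ) : Prop :=
  ∃ s : σ → ℤ, (∀ i, (p : ℤ) ^ 2 ∣ s i - u i) ∧ BadRoot v p (h.map (MvPolynomial.eval s))

lemma v_int_unit (hv : IsNonarchimedean v) {p : ℕ} (hp : p.Prime) (hvp : v (p : ℂ) < 1) {N : ℤ}
    (hN : ¬ (p : ℤ) ∣ N) : v (N : ℂ) = 1 :=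
  val_coprime hv hvp ((((Nat.prime_iff_prime_int.1 hp).coprime_iff_not_dvd).2 hN).symm)

lemma dvd_of_v_lt (hv : IsNonarchimedean v) {p : ℕ} (hp : p.Prime) (hvp : v (p : ℂ) < 1) {N : ℤ}
    (hN : v (N : ℂ) < 1) : (p : ℤ) ∣ N := by
  by_contra h
  exact absurd (v_int_unit hv hp hvp h) hN.ne

lemma dvd_eval_sub (q : MvPolynomial σ ℤ) {n : ℤ} {u w : σ → ℤ} (h : ∀ i, n ∣ u i - w i) :
    n ∣ MvPolynomial.eval u q - MvPolynomial.eval w q := by
  induction q using MvPolynomial.induction_on with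
  | C a => rw [MvPolynomial.eval_C, MvPolynomial.eval_C, sub_self]; exact dvd_zero _
  | add f g hf hg =>
    rw [map_add, map_add, add_sub_add_comm]
    exact dvd_add hf hg
  | mul_X f i hf =>
    rw [map_mul, map_mul, MvPolynomial.eval_X, MvPolynomial.eval_X]
    have h1 : MvPolynomial.eval u f * u i - MvPolynomial.eval w f * w i =
        (MvPolynomial.eval u f - MvPolynomial.eval w f) * u i + MvPolynomial.eval w f * (u i - w i) := by ring
    rw [h1]
    exact dvd_add (hf.mul_right _) ((h i).mul_left _)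

/-- **few bad points on the orbit** -/
theorem card_bad_le {h : (MvPolynomial σ ℤ)[X]} (h0 : h ≠ 0) [Fintype σ] {δ : σ → ℕ} {c k : ℤ} (hc0 : c ≠ 0)
    (hh : ∀ j μ, (h.coeff j).coeff μ ≠ 0 → c * j + wtS δ μ = k) :
    ∃ (P : MvPolynomial σ ℤ) (D p₁ : ℕ), P ≠ 0 ∧ ∀ p : ℕ, p.Prime → p₁ ≤ p → ∀ v : AbsoluteValue ℂ ℝ,
      IsNonarchimedean v → v (p : ℂ) < 1 → ∀ u : σ → ℤ, ¬ (p : ℤ) ∣ MvPolynomial.eval u P →
        ∀ T : Finset ℕ, (∀ r ∈ T, r < p) → (∀ r ∈ T, BadPt v p h (scal δ (1 + p * r) u)) → T.card ≤ D := by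
  classical
  obtain ⟨Q, G, A, B, N, c₀, Δ, hc₀, hΔ, hQ0, e1, e2⟩ := exists_sqf h0
  refine ⟨c₀ * Δ * Q.leadingCoeff, Q.natDegree, max 3 (c.natAbs + 1),
    mul_ne_zero (mul_ne_zero hc₀ hΔ) (leadingCoeff_ne_zero.2 hQ0), ?_⟩
  intro p hp hp₁ v hv hvp u hu T hT hbad
  have hp3 : 3 ≤ p := (le_max_left _ _).trans hp₁
  have hcp : ¬ (p : ℤ) ∣ c := by
    intro hd
    have h1 := Int.natAbs_dvd_natAbs.2 hd
    rw [Int.natAbs_natCast] at h1
    have h2 := Nat.le_of_dvd (Int.natAbs_pos.2 hc0) h1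
    have h3 := (le_max_right 3 (c.natAbs + 1)).trans hp₁
    omega
  have hvc : v (c : ℂ) = 1 := v_int_unit hv hp hvp hcp
  have hp0 : (p : ℂ) ≠ 0 := by exact_mod_cast hp.ne_zero
  have hvp0 : 0 < v (p : ℂ) := (AbsoluteValue.pos_iff v).2 hp0
  have hu' : ∀ s : σ → ℤ, (∀ i, (p : ℤ) ∣ s i - u i) → ¬ (p : ℤ) ∣ MvPolynomial.eval s c₀ ∧
      ¬ (p : ℤ) ∣ MvPolynomial.eval s Δ ∧ ¬ (p : ℤ) ∣ MvPolynomial.eval s Q.leadingCoeff := by
    intro s hs
    have h1 : ¬ (p : ℤ) ∣ MvPolynomial.eval s (c₀ * Δ * Q.leadingCoeff) :=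
      fun h2 => hu ((dvd_eval_iff _ hs).1 h2)
    rw [map_mul, map_mul] at h1
    exact ⟨fun h2 => h1 ((h2.mul_right _).mul_right _), fun h2 => h1 ((h2.mul_left _).mul_right _),
      fun h2 => h1 (h2.mul_left _)⟩
  -- the roots of `h` are roots of `Q`
  have hroot : ∀ s : σ → ℤ, (∀ i, (p : ℤ) ∣ s i - u i) → ∀ κ : ℂ, aeval κ (h.map (MvPolynomial.eval s)) = 0 →
      aeval κ (Q.map (MvPolynomial.eval s)) = 0 := by
    intro s hs κ hκ
    have h1 := congrArg (fun F => aeval κ (Polynomial.map (MvPolynomial.eval s) F)) e1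
    simp only [Polynomial.map_mul, Polynomial.map_pow, Polynomial.map_C, map_mul, map_pow, aeval_C, hκ, zero_mul] at h1
    rcases mul_eq_zero.1 h1 with h2 | h2
    · exfalso
      apply (hu' s hs).1
      rw [eq_intCast, Int.cast_eq_zero] at h2
      rw [h2]
      exact dvd_zero _
    · exact eq_zero_of_pow_eq_zero h2
  -- the derivative is a unit
  have hder : ∀ s : σ → ℤ, (∀ i, (p : ℤ) ∣ s i - u i) → ∀ κ : ℂ, v κ ≤ 1 →
      v (aeval κ (Q.map (MvPolynomial.eval s))) < 1 → v (aeval κ (derivative (Q.map (MvPolynomial.eval s)))) = 1 := by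
    intro s hs κ hκ1 hκ
    have h1 := congrArg (fun F => aeval κ (Polynomial.map (MvPolynomial.eval s) F)) e2
    simp only [Polynomial.map_add, Polynomial.map_mul, Polynomial.map_C, map_add, map_mul, aeval_C,
      ← derivative_map] at h1
    rw [eq_intCast] at h1
    have h2 : v ((MvPolynomial.eval s Δ : ℤ) : ℂ) = 1 := v_int_unit hv hp hvp (hu' s hs).2.1
    refine le_antisymm (v_aeval_le hv _ hκ1) (not_lt.1 fun h3 => ?_)
    have h4 : v ((MvPolynomial.eval s Δ : ℤ) : ℂ) < 1 := by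
      rw [← h1]
      refine (hv _ _).trans_lt (max_lt ?_ ?_)
      · rw [map_mul]
        exact (mul_le_of_le_one_left (v.nonneg _) (v_aeval_le hv _ hκ1)).trans_lt hκ
      · rw [map_mul]
        exact (mul_le_of_le_one_left (v.nonneg _) (v_aeval_le hv _ hκ1)).trans_lt h3
    exact absurd h2 h4.ne
  -- the data of a bad point
  have key : ∀ r : ℕ, r ∈ T → ∃ (κ η : ℂ) (s : σ → ℤ), (∀ i, (p : ℤ) ^ 2 ∣ s i - u i) ∧
      aeval κ (Q.map (MvPolynomial.eval s)) = 0 ∧ v κ = 1 ∧ (∃ M : ℕ, 0 < M ∧ M.Coprime p ∧ η ^ M = 1) ∧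
        v (κ - (((1 - p * r : ℤ) : ℂ)) ^ c * η) < v (p : ℂ) := by
    intro r hr
    obtain ⟨s, hs, κ, η, hκ, hκ1, ⟨g, hg, hη⟩, hlt⟩ := hbad r hr
    have hs1 : ∀ i, (p : ℤ) ∣ s i - u i := by
      intro i
      have h1 : (p : ℤ) ∣ s i - scal δ (1 + p * r) u i := (dvd_pow_self _ two_ne_zero).trans (hs i)
      have h2 : (p : ℤ) ∣ scal δ (1 + p * r) u i - u i := by
        have h3 : (p : ℤ) ∣ (1 + p * r) ^ δ i - 1 := by
          have h4 := sub_dvd_pow_sub_pow (1 + (p : ℤ) * r) 1 (δ i)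
          rw [one_pow, add_sub_cancel_left] at h4
          exact (dvd_mul_right _ _).trans h4
        have h5 : scal δ (1 + p * r) u i - u i = ((1 + p * r) ^ δ i - 1) * u i := by
          unfold scal; ring
        rw [h5]
        exact h3.mul_right _
      have h3 := dvd_add h1 h2
      rwa [sub_add_sub_cancel] at h3
    have hτ : (1 - p * r : ℤ) ≠ 0 := by
      intro h1
      have h2 : (p : ℤ) ∣ 1 := ⟨r, by linarith⟩
      have h3 := Int.le_of_dvd one_pos h2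
      have h4 : (3 : ℤ) ≤ p := by exact_mod_cast hp3
      linarith
    have hx1 : v (((1 - p * r : ℤ) : ℂ) - 1) < 1 := by
      have h1 : ((1 - p * r : ℤ) : ℂ) - 1 = -((p : ℂ) * (r : ℤ)) := by push_cast; ring
      rw [h1, v.map_neg, map_mul]
      exact (mul_le_of_le_one_right (v.nonneg _) (v_int_le hv _)).trans_lt hvp
    have hxc : v ((((1 - p * r : ℤ) : ℂ)) ^ c) = 1 := v_eq_one_of_near hv (v_zpow_sub_one_lt hv hx1 c)
    refine ⟨((1 - p * r : ℤ) : ℂ) ^ c * κ, η, scal δ (1 - p * r) s, ?_, ?_, ?_, ?_, ?_⟩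
    · intro i
      have h1 : scal δ (1 - p * r) s i - u i = (1 - p * r) ^ δ i * (s i - scal δ (1 + p * r) u i) +
          ((1 - (p * r) ^ 2) ^ δ i - 1) * u i := by
        have h2 : ((1 : ℤ) - (p * r) ^ 2) ^ δ i = (1 - p * r) ^ δ i * (1 + p * r) ^ δ i := by
          rw [← mul_pow]; congr 1; ring
        unfold scal
        rw [h2]
        ring
      rw [h1]
      refine dvd_add ((hs i).mul_left _) (Dvd.dvd.mul_right ?_ _)
      have h4 := sub_dvd_pow_sub_pow (1 - ((p : ℤ) * r) ^ 2) 1 (δ i)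
      rw [one_pow] at h4
      refine Dvd.dvd.trans ⟨-(r : ℤ) ^ 2, ?_⟩ h4
      ring
    · refine hroot _ ?_ _ (root_scal hh hτ hκ)
      intro i
      have h1 : scal δ (1 - p * r) s i - u i = ((1 - p * r) ^ δ i - 1) * s i + (s i - u i) := by
        unfold scal; ring
      rw [h1]
      refine dvd_add (Dvd.dvd.mul_right ?_ _) (hs1 i)
      have h4 := sub_dvd_pow_sub_pow (1 - (p : ℤ) * r) 1 (δ i)
      rw [one_pow] at h4
      refine Dvd.dvd.trans ⟨-(r : ℤ), ?_⟩ h4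
      ring
    · rw [map_mul, hxc, hκ1, one_mul]
    · have h1 := hroot s hs1 κ hκ
      have h2 := hder s hs1 κ hκ1.le (by rw [h1, map_zero]; exact zero_lt_one)
      exact order_coprime hv hp hp3 hvp hκ1.le h1 h2 hg hη hlt
    · rw [← mul_sub, map_mul, hxc, one_mul]
      exact hlt
  choose! κ η s hs hκ hκ1 hη hlt using key
  -- the roots modulo the maximal ideal
  have huu : ∀ i, (p : ℤ) ∣ u i - u i := fun i => by rw [sub_self]; exact dvd_zero _
  set F : ℂ[X] := (Q.map (MvPolynomial.eval u)).map (Int.castRingHom ℂ) with hF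
  have hlc : v F.leadingCoeff = 1 := by
    have h1 := (hu' u huu).2.2
    have h2 : MvPolynomial.eval u Q.leadingCoeff ≠ 0 := fun h3 => h1 (h3 ▸ dvd_zero _)
    have h3 : (Int.castRingHom ℂ) (Q.map (MvPolynomial.eval u)).leadingCoeff ≠ 0 := by
      rw [leadingCoeff_map_of_leadingCoeff_ne_zero _ h2, eq_intCast]
      exact_mod_cast h2
    rw [hF, leadingCoeff_map_of_leadingCoeff_ne_zero _ h3, leadingCoeff_map_of_leadingCoeff_ne_zero _ h2, eq_intCast]
    exact v_int_unit hv hp hvp h1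
  have hFdeg : F.natDegree ≤ Q.natDegree := (natDegree_map_le).trans (natDegree_map_le)
  have hv2 : v (((p : ℤ) ^ 2 : ℤ) : ℂ) = v (p : ℂ) ^ 2 := by
    push_cast
    rw [map_pow]
  have hv2lt : v (p : ℂ) ^ 2 < v (p : ℂ) := by
    rw [sq]; exact mul_lt_of_lt_one_left hvp0 hvp
  have hcoef : ∀ s₁ s₂ : σ → ℤ, (∀ i, (p : ℤ) ^ 2 ∣ s₁ i - s₂ i) → ∀ j,
      (p : ℤ) ^ 2 ∣ (Q.map (MvPolynomial.eval s₁)).coeff j - (Q.map (MvPolynomial.eval s₂)).coeff j := by
    intro s₁ s₂ h12 j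
    rw [coeff_map, coeff_map]
    have h1 := dvd_eval_sub (n := (p : ℤ) ^ 2) (Q.coeff j) h12
    exact h1
  have hdiff : ∀ s₁ s₂ : σ → ℤ, (∀ i, (p : ℤ) ^ 2 ∣ s₁ i - s₂ i) → ∀ x : ℂ, v x ≤ 1 →
      v (aeval x (Q.map (MvPolynomial.eval s₁)) - aeval x (Q.map (MvPolynomial.eval s₂))) ≤ v (p : ℂ) ^ 2 := by
    intro s₁ s₂ h12 x hx
    have h1 := v_aeval_sub hv (hcoef s₁ s₂ h12) hx
    rwa [hv2] at h1
  have hρ : ∀ r : ℕ, r ∈ T → ∃ ρ ∈ F.roots, v (κ r - ρ) < 1 := by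
    intro r hr
    refine exists_near_root hlc ?_
    have h1 : F.eval (κ r) = aeval (κ r) (Q.map (MvPolynomial.eval u)) := by
      rw [hF, eval_map, aeval_def]
      rfl
    have h2 := hdiff (s r) u (hs r hr) (κ r) (hκ1 r hr).le
    rw [hκ r hr, zero_sub, v.map_neg] at h2
    rw [h1]
    exact h2.trans_lt (hv2lt.trans hvp)
  choose! ρ hρF hρκ using hρ
  have hinj : Set.InjOn ρ T := by
    intro r hr r' hr' he
    have hr : r ∈ T := hr
    have hr' : r' ∈ T := hr'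
    have h1 : v (κ r - κ r') < 1 := by
      rw [show κ r - κ r' = (κ r - ρ r) + -(κ r' - ρ r') by rw [he]; ring]
      refine (hv _ _).trans_lt (max_lt (hρκ r hr) ?_)
      rw [v.map_neg]
      exact hρκ r' hr'
    have h1' : v (κ r' - κ r) < 1 := by rwa [← neg_sub, v.map_neg]
    have hsr : ∀ i, (p : ℤ) ∣ s r i - u i := fun i => (dvd_pow_self _ two_ne_zero).trans (hs r hr i)
    have h2 := near_root hv (Q.map (MvPolynomial.eval (s r))) (hκ1 r hr).le (hκ1 r' hr').le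
      (hder (s r) hsr (κ r) (hκ1 r hr).le (by rw [hκ r hr, map_zero]; exact zero_lt_one)) h1'
    have h3 : v (κ r' - κ r) ≤ v (p : ℂ) ^ 2 := by
      rw [h2, hκ r hr, sub_zero]
      have h4 := hdiff (s r) (s r') (fun i => by
        have h5 := dvd_sub (hs r hr i) (hs r' hr' i)
        rwa [sub_sub_sub_cancel_right] at h5) (κ r') (hκ1 r' hr').le
      rwa [hκ r' hr', sub_zero] at h4
    -- the one-units
    have hx1 : ∀ t : ℕ, v (((1 - p * t : ℤ) : ℂ) - 1) < 1 := by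
      intro t
      have h1 : ((1 - p * t : ℤ) : ℂ) - 1 = -((p : ℂ) * (t : ℤ)) := by push_cast; ring
      rw [h1, v.map_neg, map_mul]
      exact (mul_le_of_le_one_right (v.nonneg _) (v_int_le hv _)).trans_lt hvp
    obtain ⟨M, hM0, hMp, hηM⟩ := hη r hr
    obtain ⟨M', hM0', hMp', hηM'⟩ := hη r' hr'
    have hη1 : v (η r) = 1 := val_root hM0 hηM
    have hη1' : v (η r') = 1 := val_root hM0' hηM'
    have hxη : ∀ (t : ℕ) (z : ℂ), v z = 1 → v (((1 - p * t : ℤ) : ℂ) ^ c * z - z) < 1 := by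
      intro t z hz
      rw [show ((1 - p * t : ℤ) : ℂ) ^ c * z - z = (((1 - p * t : ℤ) : ℂ) ^ c - 1) * z by ring, map_mul, hz, mul_one]
      exact v_zpow_sub_one_lt hv (hx1 t) c
    have hκη : v (κ r - η r) < 1 := by
      rw [show κ r - η r = (κ r - ((1 - p * r : ℤ) : ℂ) ^ c * η r) + (((1 - p * r : ℤ) : ℂ) ^ c * η r - η r) by ring]
      exact (hv _ _).trans_lt (max_lt ((hlt r hr).trans hvp) (hxη r _ hη1))
    have hκη' : v (κ r' - η r') < 1 := by
      rw [show κ r' - η r' = (κ r' - ((1 - p * r' : ℤ) : ℂ) ^ c * η r') +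
        (((1 - p * r' : ℤ) : ℂ) ^ c * η r' - η r') by ring]
      exact (hv _ _).trans_lt (max_lt ((hlt r' hr').trans hvp) (hxη r' _ hη1'))
    have hηη : η r = η r' := by
      have hη0' : η r' ≠ 0 := by
        intro h4
        rw [h4, map_zero] at hη1'
        exact zero_ne_one hη1'
      have h4 : v (η r - η r') < 1 := by
        rw [show η r - η r' = -(κ r - η r) + ((κ r - κ r') + (κ r' - η r')) by ring]
        refine (hv _ _).trans_lt (max_lt ?_ ((hv _ _).trans_lt (max_lt h1 hκη')))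
        rw [v.map_neg]
        exact hκη
      have h5 : η r / η r' = 1 := by
        refine eq_one_of_near hv hvp (N := M * M') (Nat.Coprime.mul_left hMp hMp') ?_ ?_
        · rw [div_pow, pow_mul, hηM, one_pow, mul_comm, pow_mul, hηM', one_pow, div_one]
        · have h6 : η r / η r' - 1 = (η r - η r') / η r' := by field_simp
          rw [h6, map_div₀, hη1', div_one]
          exact h4
      exact (div_eq_one_iff_eq hη0').1 h5
    have h4 : v ((((1 - p * r : ℤ) : ℂ) ^ c - ((1 - p * r' : ℤ) : ℂ) ^ c) * η r) < v (p : ℂ) := by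
      rw [show (((1 - p * r : ℤ) : ℂ) ^ c - ((1 - p * r' : ℤ) : ℂ) ^ c) * η r =
        -(κ r - ((1 - p * r : ℤ) : ℂ) ^ c * η r) + (-(κ r' - κ r) + (κ r' - ((1 - p * r' : ℤ) : ℂ) ^ c * η r')) by
          rw [hηη]; ring]
      refine (hv _ _).trans_lt (max_lt ?_ ((hv _ _).trans_lt (max_lt ?_ (hlt r' hr'))))
      · rw [v.map_neg]
        exact hlt r hr
      · rw [v.map_neg]
        exact h3.trans_lt hv2lt
    rw [map_mul, hη1, mul_one, v_zpow_sub_zpow hv (hx1 r) (hx1 r') hvc] at h4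
    have h5 : ((1 - p * r : ℤ) : ℂ) - ((1 - p * r' : ℤ) : ℂ) = (p : ℂ) * (((r' : ℤ) - (r : ℤ) : ℤ) : ℂ) := by
      push_cast; ring
    rw [h5, map_mul] at h4
    have h6 : v ((((r' : ℤ) - (r : ℤ) : ℤ) : ℂ)) < 1 := by
      by_contra hcon
      push Not at hcon
      have := mul_le_mul_of_nonneg_left hcon hvp0.le
      rw [mul_one] at this
      exact absurd h4 (not_lt.2 this)
    have h7 := dvd_of_v_lt hv hp hvp h6
    have h8 := hT r hr
    have h9 := hT r' hr'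
    have h10 : (r' : ℤ) - r = 0 := by
      refine Int.eq_zero_of_abs_lt_dvd h7 ?_
      rw [abs_lt]
      constructor <;> omega
    omega
  calc T.card ≤ F.roots.toFinset.card :=
        Finset.card_le_card_of_injOn ρ (fun r hr => Multiset.mem_toFinset.2 (hρF r hr)) hinj
    _ ≤ Multiset.card F.roots := Multiset.toFinset_card_le _
    _ ≤ F.natDegree := card_roots' _
    _ ≤ Q.natDegree := hFdeg

end Pool.Agent.Helper81.Y13
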